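import Pool.Agent.R318.PR.FinA
import Pool.Agent.H771R4.SE.Datum

/-! # Primitive roots `F(m)` with `F` a polynomial -/

set_option autoImplicit false

namespace Pool.Agent.R318.PR

open Finset Filter Pool.Agent.R459.Eq Pool.Agent.H730R2.AA Pool.Agent.H730R2.AA.Grid
open Pool.Agent.H386R2.Artin (artinC)

lemma artinC_mem : 0 ≤ artinC ∧ artinC ≤ 1 := by
  have h := Pool.Agent.H771R4.SE.rho_lim
  constructor
  · refine ge_of_tendsto' h fun x => ?_
    exact div_nonneg (sum_nonneg fun p _ => ox_rho0 p) (Nat.cast_nonneg _)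
  · refine le_of_tendsto' h fun x => ?_
    apply div_le_one_of_le₀ _ (Nat.cast_nonneg _)
    refine (sum_le_card_nsmul _ _ 1 fun p _ => ox_rho1 p).trans ?_
    rw [nsmul_eq_mul, mul_one, pi_eq]
    rfl

lemma avg_rho (M : ℕ) (hM : M ≠ 0) :
    ∀ ε : ℝ, 0 < ε → ∃ X : ℕ, ∀ x : ℕ, X ≤ x →
      |∑ p ∈ GP M x, rho p - artinC * Nat.primeCounting x| ≤ ε * Nat.primeCounting x := by
  intro ε hε
  have hml := Pool.Agent.H771R4.SE.rho_lim
  rw [Metric.tendsto_atTop] at hml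
  obtain ⟨X1, hX1⟩ := hml (ε / 2) (by positivity)
  obtain ⟨X2, hX24, hX2⟩ := small_ev (2 * (M.primeFactors.card : ℝ)) (ε / 2) (by positivity)
  refine ⟨max X1 X2, fun x hx => ?_⟩
  have hx1 := (le_max_left _ _).trans hx
  have hx2 := (le_max_right _ _).trans hx
  have hx4 : 4 ≤ x := by omega
  have hpos := (pi_lower' x hx4).1
  have h2 := hX1 x hx1
  rw [Real.dist_eq] at h2
  have h3 : ∑ p ∈ Pool.Agent.H386R2.Artin.PP x, rho p - artinC * Nat.primeCounting x =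
      ((∑ p ∈ Pool.Agent.H386R2.Artin.PP x, rho p) / Nat.primeCounting x - artinC) * Nat.primeCounting x := by
    field_simp
  have h4 : |∑ p ∈ Pool.Agent.H386R2.Artin.PP x, rho p - artinC * Nat.primeCounting x| ≤
      ε / 2 * Nat.primeCounting x := by
    rw [h3, abs_mul, abs_of_pos hpos]
    gcongr
  have h6 := GP_sum M hM x (Pool.Agent.H386R2.Artin.PP x) rho (fun p => ox_rho0 p)
    (fun p => (ox_rho1 p).trans (by norm_num))
    (by
      intro p hp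
      rw [mem_GP] at hp
      rw [Pool.Agent.H386R2.Artin.PP, mem_filter, mem_range]
      exact ⟨by omega, hp.2.1⟩)
    (by
      intro p hp
      rw [Pool.Agent.H386R2.Artin.PP, mem_filter, mem_range] at hp
      exact ⟨by omega, hp.2⟩)
  have h7 := hX2 x hx2
  have h8 : 0 ≤ Real.log x := Real.log_nonneg (by exact_mod_cast (by omega : 1 ≤ x))
  have h9 := abs_sub_le (∑ p ∈ GP M x, rho p) (∑ p ∈ Pool.Agent.H386R2.Artin.PP x, rho p)
    (artinC * Nat.primeCounting x)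
  linarith

lemma avg_half (M : ℕ) (hM : M ≠ 0) :
    ∀ ε : ℝ, 0 < ε → ∃ X : ℕ, ∀ x : ℕ, X ≤ x →
      |∑ _p ∈ GP M x, (1 / 2 : ℝ) - 1 / 2 * Nat.primeCounting x| ≤ ε * Nat.primeCounting x := by
  intro ε hε
  obtain ⟨X2, hX24, hX2⟩ := small_ev (M.primeFactors.card : ℝ) ε hε
  refine ⟨X2, fun x hx => ?_⟩
  have h7 := hX2 x hx
  have h8 : 0 ≤ Real.log x := Real.log_nonneg (by exact_mod_cast (by omega : 1 ≤ x))
  have h1 := GP_card_le M x
  have h2 := GP_card_ge M hM x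
  have h3 : (0 : ℝ) ≤ (M.primeFactors.card : ℝ) := Nat.cast_nonneg _
  rw [sum_const, nsmul_eq_mul, abs_le]
  constructor <;> linarith

/-- few values of `F` are squares up to the factor `D` -/
theorem few_squares (b : ℕ) (hb : 2 ≤ b) (A : ℕ) (γ : ℝ) (hγ0 : 0 < γ) (hγ1 : γ < 1) : ∃ W : ℕ, 1 ≤ W ∧
    ∀ (F₀ : ℕ) (κ : ℤ), 1 ≤ F₀ → κ ≠ 0 → ∀ (F : Polynomial ℤ) (z : ℂ),
    Polynomial.aeval z F = 0 → Polynomial.aeval z (Polynomial.derivative F) ≠ 0 →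
    ∀ D : ℤ, D ≠ 0 →
    ∃ (C : ℝ) (X₀ : ℕ), 0 < C ∧ 4 ≤ X₀ ∧ ∀ (k X : ℕ), X₀ ≤ X → X ^ W ≤ b ^ k →
    ∀ (ι : Type) (Ω : Finset ι) (w : ι → ℝ) (v : ι → ℤ), Decays b F₀ A k γ κ Ω w v → ∀ E : Finset ι, E ⊆ Ω →
      (∀ i ∈ E, IsSquare (D * F.eval (v i))) → ∑ i ∈ E, w i ≤ C * (Real.log X / X) := by
  obtain ⟨W, hW, h⟩ := one_gen b hb A γ hγ0 hγ1
  refine ⟨W, hW, fun F₀ κ hF₀ hκ F z h0 h1 D hD0 => ?_⟩
  obtain ⟨M₀, hM₀, hM⟩ := weilF F z h0 h1
  obtain ⟨M, hMdef⟩ : ∃ M : ℕ, M = b * (2 * D.natAbs) * M₀ := ⟨_, rfl⟩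
  have hDn : D.natAbs ≠ 0 := Int.natAbs_ne_zero.2 hD0
  have hM0 : M ≠ 0 := by
    rw [hMdef]
    exact mul_ne_zero (mul_ne_zero (by omega) (mul_ne_zero two_ne_zero hDn)) hM₀
  have hbM : b ∣ M := ⟨2 * D.natAbs * M₀, by rw [hMdef]; ring⟩
  have h2M : 2 ∣ M := ⟨b * D.natAbs * M₀, by rw [hMdef]; ring⟩
  have hDM : D.natAbs ∣ M := ⟨b * 2 * M₀, by rw [hMdef]; ring⟩
  have hMM : M₀ ∣ M := ⟨b * (2 * D.natAbs), by rw [hMdef]; ring⟩
  obtain ⟨C, X₀, hC, hX₀, hmain⟩ := h F₀ κ hF₀ hκ M hM0 hbM (fun p n => qu D p (F.eval n))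
    (fun p n => qu_mem D p _)
    (fun p _ _ m n hmn => qu_per D p _ _ (eval_dvd F p m n hmn)) (1 / 2)
    (mean_avg M F.natDegree _ (fun _ => 1 / 2) (1 / 2) (by
      intro p hp hpM
      have : Fact p.Prime := ⟨hp⟩
      apply mean_qu p hp
      · rintro rfl
        exact hpM h2M
      · intro hd
        exact hpM ((Int.natCast_dvd.1 hd).trans hDM)
      · exact hM p (fun hd => hpM (hd.trans hMM))) (avg_half M hM0)) (1 / 4) (by norm_num)
  obtain ⟨X1, hX14, hX1⟩ := small_ev (M.primeFactors.card : ℝ) (1 / 8) (by norm_num)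
  refine ⟨C, max X₀ X1, hC, hX₀.trans (le_max_left _ _), fun k X hX hXW ι Ω w v hdec E hE hsq => ?_⟩
  refine hmain k X ((le_max_left _ _).trans hX) hXW ι Ω w v hdec E hE fun i hi => ?_
  have hX1' : X1 ≤ X := (le_max_right _ _).trans hX
  have hX4 : 4 ≤ X := by omega
  have hpos := (pi_lower' X hX4).1
  have h2 : ∑ p ∈ GP M X, qu D p (F.eval (v i)) = ((GP M X).card : ℝ) := by
    have e : ∀ p ∈ GP M X, qu D p (F.eval (v i)) = 1 := by
      intro p _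
      unfold qu
      rw [if_pos]
      exact (hsq i hi).map (Int.castRingHom (ZMod p))
    rw [sum_congr rfl e, sum_const, nsmul_eq_mul, mul_one]
  have h3 := hX1 X hX1'
  have h8 : 0 ≤ Real.log X := Real.log_nonneg (by exact_mod_cast (by omega : 1 ≤ X))
  have h4 := GP_card_ge M hM0 X
  rw [h2]
  refine lt_of_lt_of_le ?_ (le_abs_self _)
  linarith

/-- the number of the primes modulo which `F(m)` is a primitive root -/
theorem artin_poly (b : ℕ) (hb : 2 ≤ b) (A : ℕ) (γ : ℝ) (hγ0 : 0 < γ) (hγ1 : γ < 1) : ∃ W : ℕ, 1 ≤ W ∧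
    ∀ (F₀ : ℕ) (κ : ℤ), 1 ≤ F₀ → κ ≠ 0 → ∀ (F : Polynomial ℤ) (z : ℂ),
    Polynomial.aeval z F = 0 → Polynomial.aeval z (Polynomial.derivative F) ≠ 0 →
    ∀ ε : ℝ, 0 < ε →
    ∃ (C : ℝ) (X₀ : ℕ), 0 < C ∧ 2 ≤ X₀ ∧ ∀ (k X : ℕ), X₀ ≤ X →
    ∀ (ι : Type) (Ω : Finset ι) (w : ι → ℝ) (v : ι → ℤ), Decays b F₀ A k γ κ Ω w v → ∀ E : Finset ι, E ⊆ Ω →
      (∀ i ∈ E, ∃ x : ℕ, X ≤ x ∧ x ^ W ≤ b ^ k ∧ ε * (Nat.primeCounting x : ℝ) <
        |(cnt (F.eval (v i)) x : ℝ) - artinC * (Nat.primeCounting x : ℝ)|) →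
      ∑ i ∈ E, w i ≤ C * (Real.log X / X) := by
  obtain ⟨W, hW, h⟩ := all_gen b hb A γ hγ0 hγ1
  refine ⟨W, hW, fun F₀ κ hF₀ hκ F z h0 h1 ε hε => ?_⟩
  obtain ⟨M₀, hM₀, hM⟩ := weilF F z h0 h1
  obtain ⟨M, hMdef⟩ : ∃ M : ℕ, M = b * M₀ := ⟨_, rfl⟩
  have hM0 : M ≠ 0 := by
    rw [hMdef]
    exact mul_ne_zero (by omega) hM₀
  have hbM : b ∣ M := ⟨M₀, hMdef⟩
  have hMM : M₀ ∣ M := ⟨b, by rw [hMdef]; ring⟩
  refine h F₀ κ hF₀ hκ M hM0 hbM (fun p n => pri p (F.eval n)) (fun p n => pri_mem p _) ?_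
    artinC ?_ (fun v x => cnt (F.eval v) x) (fun v x y hxy => cnt_mono _ hxy)
    (M.primeFactors.card : ℝ) ?_ ε hε
  · intro p _ _ m n hmn
    exact pri_per p _ _ (eval_dvd F p m n hmn)
  · apply mean_avg M F.natDegree _ rho artinC
    · intro p hp hpM
      have : Fact p.Prime := ⟨hp⟩
      exact mean_pri p hp F _ (hM p (fun hd => hpM (hd.trans hMM)))
    · exact avg_rho M hM0
  · intro v x
    exact cnt_pri M hM0 (F.eval v) x

/-- the correction factor is close to `1` for large squarefree parts -/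
lemma dens_close (D : ℤ) (hD : Squarefree D) (hD1 : D % 4 = 1) :
    |dens D - artinC| ≤ 1 / (D.natAbs : ℝ) := by
  have hD0 : D ≠ 0 := by rintro rfl; norm_num at hD1
  have hodd : ¬ 2 ∣ D.natAbs := by
    intro h
    have : (2 : ℤ) ∣ D := by
      have := Int.natCast_dvd.2 h
      exact_mod_cast this
    omega
  have hsf : Squarefree D.natAbs := Int.squarefree_natAbs.2 hD
  have h1 : ∏ q ∈ D.natAbs.primeFactors, (1 / ((q : ℝ) ^ 2 - (q : ℝ) - 1)) ≤ 1 / (D.natAbs : ℝ) := by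
    have h2 : (D.natAbs : ℝ) = ∏ q ∈ D.natAbs.primeFactors, (q : ℝ) := by
      have := Nat.prod_primeFactors_of_squarefree hsf
      conv_lhs => rw [← this]
      push_cast
      rfl
    rw [h2, one_div, ← prod_inv_distrib]
    apply Finset.prod_le_prod
    · intro q hq
      have hq' := Nat.mem_primeFactors.1 hq
      have : (2 : ℝ) ≤ q := by exact_mod_cast hq'.1.two_le
      apply div_nonneg zero_le_one
      nlinarith
    · intro q hq
      have hq' := Nat.mem_primeFactors.1 hq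
      have h3 : 3 ≤ q := by
        have h4 := hq'.1.two_le
        rcases Nat.lt_or_ge 2 q with h5 | h5
        · exact h5
        · exfalso
          have : q = 2 := by omega
          rw [this] at hq'
          exact hodd hq'.2.1
      have h4 : (3 : ℝ) ≤ q := by exact_mod_cast h3
      rw [one_div]
      apply inv_anti₀ (by linarith)
      nlinarith
  have h0 : 0 ≤ ∏ q ∈ D.natAbs.primeFactors, (1 / ((q : ℝ) ^ 2 - (q : ℝ) - 1)) := by
    apply prod_nonneg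
    intro q hq
    have hq' := Nat.mem_primeFactors.1 hq
    have : (2 : ℝ) ≤ q := by exact_mod_cast hq'.1.two_le
    apply div_nonneg zero_le_one
    nlinarith
  obtain ⟨hA0, hA1⟩ := artinC_mem
  have hμ : |((ArithmeticFunction.moebius D.natAbs : ℤ) : ℝ)| ≤ 1 := by
    have := ArithmeticFunction.abs_moebius_le_one (n := D.natAbs)
    exact_mod_cast this
  have e : dens D - artinC = -(((ArithmeticFunction.moebius D.natAbs : ℤ) : ℝ) *
      ((∏ q ∈ D.natAbs.primeFactors, (1 / ((q : ℝ) ^ 2 - (q : ℝ) - 1))) * artinC)) := by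
    unfold Pool.Agent.H730R2.AA.dens artinC
    ring
  rw [e, abs_neg, abs_mul]
  have h5 : |(∏ q ∈ D.natAbs.primeFactors, (1 / ((q : ℝ) ^ 2 - (q : ℝ) - 1))) * artinC| ≤
      1 / (D.natAbs : ℝ) := by
    rw [abs_of_nonneg (mul_nonneg h0 hA0)]
    calc _ ≤ (∏ q ∈ D.natAbs.primeFactors, (1 / ((q : ℝ) ^ 2 - (q : ℝ) - 1))) * 1 :=
          mul_le_mul_of_nonneg_left hA1 h0
      _ ≤ _ := by rw [mul_one]; exact h1
  calc _ ≤ 1 * (1 / (D.natAbs : ℝ)) := mul_le_mul hμ h5 (abs_nonneg _) zero_le_one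
    _ = _ := one_mul _

/-- the value `F(m)` with the density formula that depends on its squarefree part -/
theorem artin_poly_sf (b : ℕ) (hb : 2 ≤ b) (A : ℕ) (γ : ℝ) (hγ0 : 0 < γ) (hγ1 : γ < 1) : ∃ W : ℕ, 1 ≤ W ∧
    ∀ (F₀ : ℕ) (κ : ℤ), 1 ≤ F₀ → κ ≠ 0 → ∀ (F : Polynomial ℤ) (z : ℂ),
    Polynomial.aeval z F = 0 → Polynomial.aeval z (Polynomial.derivative F) ≠ 0 →
    ∀ ε : ℝ, 0 < ε →
    ∃ (C : ℝ) (X₀ : ℕ), 0 < C ∧ 2 ≤ X₀ ∧ ∀ (k X : ℕ), X₀ ≤ X →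
    ∀ (ι : Type) (Ω : Finset ι) (w : ι → ℝ) (v : ι → ℤ), Decays b F₀ A k γ κ Ω w v → ∀ E : Finset ι, E ⊆ Ω →
      (∀ i ∈ E, ∃ x : ℕ, X ≤ x ∧ x ^ W ≤ b ^ k ∧ ∃ D s : ℤ, Squarefree D ∧ F.eval (v i) = D * s ^ 2 ∧
        ε * (Nat.primeCounting x : ℝ) <
        |(cnt (F.eval (v i)) x : ℝ) - (if D % 4 = 1 then dens D else artinC) * (Nat.primeCounting x : ℝ)|) →
      ∑ i ∈ E, w i ≤ C * (Real.log X / X) := by
  classical
  obtain ⟨W₁, hW₁, H₁⟩ := artin_poly b hb A γ hγ0 hγ1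
  obtain ⟨W₂, hW₂, H₂⟩ := few_squares b hb A γ hγ0 hγ1
  refine ⟨max W₁ W₂, hW₁.trans (le_max_left _ _), fun F₀ κ hF₀ hκ F z h0 h1 ε hε => ?_⟩
  obtain ⟨C₁, X₁, hC₁, hX₁, J₁⟩ := H₁ F₀ κ hF₀ hκ F z h0 h1 (ε / 2) (by positivity)
  obtain ⟨K, hK⟩ := exists_nat_ge (2 / ε : ℝ)
  -- the constants for the small `D`
  have h2 : ∀ D : ℤ, ∃ (C : ℝ) (X₀ : ℕ), 0 < C ∧ 4 ≤ X₀ ∧ (D ≠ 0 → ∀ (k X : ℕ), X₀ ≤ X → X ^ W₂ ≤ b ^ k →
    ∀ (ι : Type) (Ω : Finset ι) (w : ι → ℝ) (v : ι → ℤ), Decays b F₀ A k γ κ Ω w v → ∀ E : Finset ι, E ⊆ Ω →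
      (∀ i ∈ E, IsSquare (D * F.eval (v i))) → ∑ i ∈ E, w i ≤ C * (Real.log X / X)) := by
    intro D
    by_cases hD : D = 0
    · exact ⟨1, 4, one_pos, le_rfl, fun h => absurd hD h⟩
    · obtain ⟨C, X₀, hC, hX₀, hJ⟩ := H₂ F₀ κ hF₀ hκ F z h0 h1 D hD
      exact ⟨C, X₀, hC, hX₀, fun _ => hJ⟩
  choose C₂ X₂ hC₂ hX₂ J₂ using h2
  obtain ⟨R, hR⟩ : ∃ R : Finset ℤ, R = (Icc (-(K : ℤ)) K).filter (fun D => D ≠ 0) := ⟨_, rfl⟩
  refine ⟨C₁ + ∑ D ∈ R, C₂ D, X₁ + ∑ D ∈ R, X₂ D, ?_, by omega, ?_⟩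
  · have : 0 ≤ ∑ D ∈ R, C₂ D := sum_nonneg fun D _ => (hC₂ D).le
    linarith
  intro k X hX ι Ω w v hdec E hE hbad
  rcases E.eq_empty_or_nonempty with hemp | ⟨i₀, hi₀⟩
  · rw [hemp, sum_empty]
    have h3 : 0 ≤ ∑ D ∈ R, C₂ D := sum_nonneg fun D _ => (hC₂ D).le
    apply mul_nonneg (by linarith)
    apply div_nonneg (Real.log_nonneg _) (Nat.cast_nonneg _)
    exact_mod_cast (by omega : 1 ≤ X)
  have hXpos : 1 ≤ X := by omega
  have hXW : X ^ W₂ ≤ b ^ k := by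
    obtain ⟨x, hx1, hx2, _⟩ := hbad i₀ hi₀
    calc X ^ W₂ ≤ x ^ W₂ := Nat.pow_le_pow_left hx1 _
      _ ≤ x ^ max W₁ W₂ := Nat.pow_le_pow_right (by omega) (le_max_right _ _)
      _ ≤ b ^ k := hx2
  obtain ⟨EE, hEE⟩ : ∃ EE : ℤ → Finset ι, EE = fun D => E.filter (fun i => IsSquare (D * F.eval (v i))) := ⟨_, rfl⟩
  obtain ⟨E₁, hE₁⟩ : ∃ E₁ : Finset ι, E₁ = E.filter (fun i => ∃ x : ℕ, X ≤ x ∧ x ^ W₁ ≤ b ^ k ∧
    ε / 2 * (Nat.primeCounting x : ℝ) < |(cnt (F.eval (v i)) x : ℝ) - artinC * (Nat.primeCounting x : ℝ)|) :=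
    ⟨_, rfl⟩
  have hcover : E ⊆ E₁ ∪ R.biUnion EE := by
    intro i hi
    obtain ⟨x, hx1, hx2, D, s, hDsf, hDs, hx3⟩ := hbad i hi
    rw [mem_union]
    by_cases hsm : D.natAbs ≤ K
    · right
      rw [mem_biUnion]
      refine ⟨D, ?_, ?_⟩
      · rw [hR, mem_filter, mem_Icc]
        exact ⟨by omega, hDsf.ne_zero⟩
      · rw [hEE, mem_filter]
        refine ⟨hi, D * s, ?_⟩
        rw [hDs]
        ring
    · left
      rw [hE₁, mem_filter]
      refine ⟨hi, x, hx1, (Nat.pow_le_pow_right (by omega) (le_max_left _ _)).trans hx2, ?_⟩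
      have hclose : |(if D % 4 = 1 then dens D else artinC) - artinC| ≤ ε / 2 := by
        split_ifs with h4
        · refine (dens_close D hDsf h4).trans ?_
          have h5 : (2 / ε : ℝ) ≤ (D.natAbs : ℝ) := by
            refine hK.trans ?_
            exact_mod_cast (by omega : K ≤ D.natAbs)
          have h6 : (0 : ℝ) < 2 / ε := by positivity
          calc 1 / (D.natAbs : ℝ) ≤ 1 / (2 / ε) := one_div_le_one_div_of_le h6 h5
            _ = ε / 2 := by field_simp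
        · rw [sub_self, abs_zero]
          positivity
      have h7 := abs_sub_le (cnt (F.eval (v i)) x : ℝ) (artinC * (Nat.primeCounting x : ℝ))
        ((if D % 4 = 1 then dens D else artinC) * (Nat.primeCounting x : ℝ))
      have h8 : |artinC * (Nat.primeCounting x : ℝ) -
          (if D % 4 = 1 then dens D else artinC) * (Nat.primeCounting x : ℝ)| ≤
          ε / 2 * (Nat.primeCounting x : ℝ) := by
        rw [abs_sub_comm, ← sub_mul, abs_mul, Nat.abs_cast]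
        exact mul_le_mul_of_nonneg_right hclose (Nat.cast_nonneg _)
      linarith
  have hw0 : ∀ i ∈ E, 0 ≤ w i := fun i hi => hdec.nonneg i (hE hi)
  have hw0' : ∀ i ∈ E₁ ∪ R.biUnion EE, 0 ≤ w i := by
    intro i hi
    rw [mem_union, mem_biUnion, hE₁, hEE] at hi
    rcases hi with hi | ⟨D, _, hi⟩
    · exact hw0 i (mem_filter.1 hi).1
    · exact hw0 i (mem_filter.1 hi).1
  have hsub : ∀ (s : Finset ℤ), ∑ i ∈ s.biUnion EE, w i ≤ ∑ D ∈ s, ∑ i ∈ EE D, w i := by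
    intro s
    induction s using Finset.induction_on with
    | empty => simp
    | insert a s ha ih =>
      rw [biUnion_insert, sum_insert ha]
      have h4 := sum_union_inter (s₁ := EE a) (s₂ := s.biUnion EE) (f := w)
      have h5 : 0 ≤ ∑ i ∈ EE a ∩ s.biUnion EE, w i := by
        apply sum_nonneg
        intro i hi
        rw [mem_inter] at hi
        have := hi.1
        rw [hEE, mem_filter] at this
        exact hw0 i this.1
      linarith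
  have h3 : ∑ i ∈ E, w i ≤ ∑ i ∈ E₁, w i + ∑ D ∈ R, ∑ i ∈ EE D, w i := by
    calc ∑ i ∈ E, w i ≤ ∑ i ∈ E₁ ∪ R.biUnion EE, w i :=
          sum_le_sum_of_subset_of_nonneg hcover fun i hi _ => hw0' i hi
      _ ≤ ∑ i ∈ E₁, w i + ∑ i ∈ R.biUnion EE, w i := by
          have h4 := sum_union_inter (s₁ := E₁) (s₂ := R.biUnion EE) (f := w)
          have h5 : 0 ≤ ∑ i ∈ E₁ ∩ R.biUnion EE, w i := by
            apply sum_nonneg
            intro i hi
            rw [mem_inter] at hi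
            have := hi.1
            rw [hE₁, mem_filter] at this
            exact hw0 i this.1
          linarith
      _ ≤ _ := by
          have := hsub R
          linarith
  have hXE : X₁ ≤ X := by omega
  have h4 : ∑ i ∈ E₁, w i ≤ C₁ * (Real.log X / X) := by
    apply J₁ k X hXE ι Ω w v hdec E₁
    · rw [hE₁]
      exact (filter_subset _ _).trans hE
    · intro i hi
      rw [hE₁, mem_filter] at hi
      exact hi.2
  have h5 : ∑ D ∈ R, ∑ i ∈ EE D, w i ≤ ∑ D ∈ R, C₂ D * (Real.log X / X) := by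
    apply sum_le_sum
    intro D hD
    have hD0 : D ≠ 0 := by
      rw [hR, mem_filter] at hD
      exact hD.2
    have hXD : X₂ D ≤ X := by
      have := single_le_sum (f := X₂) (fun _ _ => Nat.zero_le _) hD
      omega
    apply J₂ D hD0 k X hXD hXW ι Ω w v hdec (EE D)
    · rw [hEE]
      exact (filter_subset _ _).trans hE
    · intro i hi
      rw [hEE, mem_filter] at hi
      exact hi.2
  rw [← sum_mul] at h5
  rw [add_mul]
  linarith

end Pool.Agent.R318.PR
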