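import Pool.Agent.R318.PR.Mean

/-! # Primitive roots `D F(m) ^ 2` with `F` a polynomial -/

set_option autoImplicit false

namespace Pool.Agent.R318.PR

open Finset Filter Pool.Agent.R459.Eq Pool.Agent.H730R2.AA Pool.Agent.H730R2.AA.Grid

lemma ind_eq (D : ℤ) (p : ℕ) (n : ℤ) : ind D p n = pri p (D * n ^ 2) := by
  unfold ind pri
  rfl

/-- the primes that divide `M` do not matter -/
lemma cnt_pri (M : ℕ) (hM : M ≠ 0) (n : ℤ) (x : ℕ) :
    |(cnt n x : ℝ) - ∑ p ∈ GP M x, pri p n| ≤ (M.primeFactors.card : ℝ) := by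
  classical
  have h1 : ∑ p ∈ GP M x, pri p n =
      (((GP M x).filter (fun p => orderOf ((n : ℤ) : ZMod p) = p - 1)).card : ℝ) := by
    unfold pri
    rw [← sum_filter, sum_const, nsmul_eq_mul, mul_one]
  obtain ⟨S, hS⟩ : ∃ S, S = (range (x + 1)).filter (fun p : ℕ => p.Prime ∧ orderOf ((n : ℤ) : ZMod p) = p - 1) :=
    ⟨_, rfl⟩
  have h2 : cnt n x = S.card := by
    rw [hS]
    unfold cnt
    congr!
  have h3 : (GP M x).filter (fun p => orderOf ((n : ℤ) : ZMod p) = p - 1) ⊆ S := by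
    intro p hp
    rw [mem_filter, mem_GP] at hp
    rw [hS, mem_filter, mem_range]
    exact ⟨by omega, hp.1.2.1, hp.2⟩
  have h4 : S ⊆ (GP M x).filter (fun p => orderOf ((n : ℤ) : ZMod p) = p - 1) ∪ M.primeFactors := by
    intro p hp
    rw [hS, mem_filter, mem_range] at hp
    rw [mem_union, mem_filter, mem_GP]
    by_cases h : p ∣ M
    · exact Or.inr (Nat.mem_primeFactors.2 ⟨hp.2.1, h, hM⟩)
    · exact Or.inl ⟨⟨by omega, hp.2.1, h⟩, hp.2.2⟩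
  have h5 := card_le_card h3
  have h6 := (card_le_card h4).trans (card_union_le _ _)
  rw [h1, h2, abs_le]
  have h5' : (((GP M x).filter (fun p => orderOf ((n : ℤ) : ZMod p) = p - 1)).card : ℝ) ≤ S.card := by
    exact_mod_cast h5
  have h6' : (S.card : ℝ) ≤ (((GP M x).filter (fun p => orderOf ((n : ℤ) : ZMod p) = p - 1)).card : ℝ) +
      (M.primeFactors.card : ℝ) := by exact_mod_cast h6
  have h7 : (0 : ℝ) ≤ (M.primeFactors.card : ℝ) := Nat.cast_nonneg _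
  constructor <;> linarith

/-- the finitely many primes that divide `M` do not matter in sums -/
lemma GP_sum (M : ℕ) (hM : M ≠ 0) (x : ℕ) (S : Finset ℕ) (c : ℕ → ℝ) (hc0 : ∀ p, 0 ≤ c p)
    (hc2 : ∀ p, c p ≤ 2) (h1 : GP M x ⊆ S) (h2 : ∀ p ∈ S, p ≤ x ∧ p.Prime) :
    |∑ p ∈ GP M x, c p - ∑ p ∈ S, c p| ≤ 2 * (M.primeFactors.card : ℝ) := by
  have h3 := sum_sdiff h1 (f := c)
  have h4 : 0 ≤ ∑ p ∈ S \ GP M x, c p := sum_nonneg fun p _ => hc0 p
  have h5 : ∑ p ∈ S \ GP M x, c p ≤ 2 * (M.primeFactors.card : ℝ) := by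
    have h6 : S \ GP M x ⊆ M.primeFactors := by
      intro p hp
      rw [Finset.mem_sdiff, mem_GP] at hp
      have h7 := h2 p hp.1
      rw [Nat.mem_primeFactors]
      refine ⟨h7.2, ?_, hM⟩
      by_contra h
      exact hp.2 ⟨h7.1, h7.2, h⟩
    calc ∑ p ∈ S \ GP M x, c p ≤ (S \ GP M x).card • (2 : ℝ) :=
          sum_le_card_nsmul _ _ _ fun p _ => hc2 p
      _ = 2 * (((S \ GP M x).card : ℕ) : ℝ) := by rw [nsmul_eq_mul, mul_comm]
      _ ≤ _ := by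
          have : (((S \ GP M x).card : ℕ) : ℝ) ≤ (M.primeFactors.card : ℝ) := by
            exact_mod_cast card_le_card h6
          linarith
  rw [← h3, abs_le]
  constructor <;> linarith

lemma avg_cc (D : ℤ) (hD : Squarefree D) (hD1 : D % 4 = 1) (hD2 : D ≠ 1) (M : ℕ) (hM : M ≠ 0)
    (h2M : 2 ∣ M) (hDM : D.natAbs ∣ M) :
    ∀ ε : ℝ, 0 < ε → ∃ X : ℕ, ∀ x : ℕ, X ≤ x →
      |∑ p ∈ GP M x, cc D p - dens D * Nat.primeCounting x| ≤ ε * Nat.primeCounting x := by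
  intro ε hε
  have hml := main_lim D hD hD1 hD2
  rw [Metric.tendsto_atTop] at hml
  obtain ⟨X1, hX1⟩ := hml (ε / 2) (by positivity)
  obtain ⟨X2, hX24, hX2⟩ := small_ev (2 * (M.primeFactors.card : ℝ)) (ε / 2) (by positivity)
  refine ⟨max X1 X2, fun x hx => ?_⟩
  have hx1 := (le_max_left _ _).trans hx
  have hx2 := (le_max_right _ _).trans hx
  have hx4 : 4 ≤ x := by omega
  have hpos := (pi_lower' x hx4).1
  have h2 := hX1 x hx1
  rw [Real.dist_eq] at h2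
  have h3 : mainT D x - dens D * Nat.primeCounting x =
      (mainT D x / Nat.primeCounting x - dens D) * Nat.primeCounting x := by
    field_simp
  have h4 : |mainT D x - dens D * Nat.primeCounting x| ≤ ε / 2 * Nat.primeCounting x := by
    rw [h3, abs_mul, abs_of_pos hpos]
    gcongr
  have h5 : mainT D x = ∑ p ∈ PR D x, cc D p := rfl
  have h6 := GP_sum M hM x (PR D x) (cc D) (fun p => (cc_mem D p).1) (fun p => (cc_mem D p).2)
    (by
      intro p hp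
      rw [mem_GP] at hp
      rw [PR, mem_filter, mem_range]
      refine ⟨by omega, hp.2.1, ?_, ?_⟩
      · rintro rfl
        exact hp.2.2 h2M
      · intro h
        exact hp.2.2 ((Int.natCast_dvd.1 h).trans hDM))
    (by
      intro p hp
      rw [PR, mem_filter, mem_range] at hp
      exact ⟨by omega, hp.2.1⟩)
  have h7 := hX2 x hx2
  have h8 : 0 ≤ Real.log x := Real.log_nonneg (by exact_mod_cast (by omega : 1 ≤ x))
  have h9 := abs_sub_le (∑ p ∈ GP M x, cc D p) (mainT D x) (dens D * Nat.primeCounting x)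
  rw [← h5] at h6
  linarith

lemma eval_dvd (F : Polynomial ℤ) (p : ℕ) (m n : ℤ) (h : (p : ℤ) ∣ m - n) :
    (p : ℤ) ∣ F.eval m - F.eval n :=
  h.trans (Polynomial.sub_dvd_eval_sub m n F)

theorem artin_poly_sq (b : ℕ) (hb : 2 ≤ b) (A : ℕ) (γ : ℝ) (hγ0 : 0 < γ) (hγ1 : γ < 1) : ∃ W : ℕ, 1 ≤ W ∧
    ∀ (F₀ : ℕ) (κ : ℤ), 1 ≤ F₀ → κ ≠ 0 → ∀ (F : Polynomial ℤ) (z : ℂ),
    Polynomial.aeval z F = 0 → Polynomial.aeval z (Polynomial.derivative F) ≠ 0 →
    ∀ D : ℤ, Squarefree D → D % 4 = 1 → D ≠ 1 → ∀ ε : ℝ, 0 < ε →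
    ∃ (C : ℝ) (X₀ : ℕ), 0 < C ∧ 2 ≤ X₀ ∧ ∀ (k X : ℕ), X₀ ≤ X →
    ∀ (ι : Type) (Ω : Finset ι) (w : ι → ℝ) (v : ι → ℤ), Decays b F₀ A k γ κ Ω w v → ∀ E : Finset ι, E ⊆ Ω →
      (∀ i ∈ E, ∃ x : ℕ, X ≤ x ∧ x ^ W ≤ b ^ k ∧ ε * (Nat.primeCounting x : ℝ) <
        |(cnt (D * (F.eval (v i)) ^ 2) x : ℝ) - dens D * (Nat.primeCounting x : ℝ)|) →
      ∑ i ∈ E, w i ≤ C * (Real.log X / X) := by
  obtain ⟨W, hW, h⟩ := all_gen b hb A γ hγ0 hγ1
  refine ⟨W, hW, fun F₀ κ hF₀ hκ F z h0 h1 D hD hD1 hD2 ε hε => ?_⟩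
  have hD0 : D ≠ 0 := by rintro rfl; norm_num at hD1
  obtain ⟨M₀, hM₀, hM⟩ := weilF F z h0 h1
  obtain ⟨M, hMdef⟩ : ∃ M : ℕ, M = b * (2 * D.natAbs) * M₀ := ⟨_, rfl⟩
  have hDn : D.natAbs ≠ 0 := Int.natAbs_ne_zero.2 hD0
  have hM0 : M ≠ 0 := by
    rw [hMdef]
    exact mul_ne_zero (mul_ne_zero (by omega) (mul_ne_zero two_ne_zero hDn)) hM₀
  have hbM : b ∣ M := ⟨2 * D.natAbs * M₀, by rw [hMdef]; ring⟩
  have h2M : 2 ∣ M := ⟨b * D.natAbs * M₀, by rw [hMdef]; ring⟩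
  have hDM : D.natAbs ∣ M := ⟨b * 2 * M₀, by rw [hMdef]; ring⟩
  have hMM : M₀ ∣ M := ⟨b * (2 * D.natAbs), by rw [hMdef]; ring⟩
  refine h F₀ κ hF₀ hκ M hM0 hbM (fun p n => ind D p (F.eval n)) (fun p n => ind_mem D p _) ?_
    (dens D) ?_ (fun v x => cnt (D * (F.eval v) ^ 2) x) (fun v x y hxy => cnt_mono _ hxy)
    (M.primeFactors.card : ℝ) ?_ ε hε
  · intro p _ _ m n hmn
    exact ind_per D p _ _ (eval_dvd F p m n hmn)
  · apply mean_avg M F.natDegree _ (cc D) (dens D)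
    · intro p hp hpM
      have : Fact p.Prime := ⟨hp⟩
      apply mean_sq p hp
      · rintro rfl
        exact hpM h2M
      · intro hd
        exact hpM ((Int.natCast_dvd.1 hd).trans hDM)
      · exact hM p (fun hd => hpM (hd.trans hMM))
    · exact avg_cc D hD hD1 hD2 M hM0 h2M hDM
  · intro v x
    have := cnt_pri M hM0 (D * (F.eval v) ^ 2) x
    simp only [ind_eq]
    exact this

end Pool.Agent.R318.PR
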