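import Pool.Agent.R459.Eq5

/-! # Counting primes with a condition modulo `p`, for random integers whose characteristic function decays -/

set_option autoImplicit false

namespace Pool.Agent.R318.PR

open Finset Filter Pool.Agent.R459.Eq Pool.Agent.H730R2.AA Pool.Agent.H730R2.AA.Grid

/-- the primes up to `x` that do not divide `M` -/
def GP (M x : ℕ) : Finset ℕ := (range (x + 1)).filter (fun p => p.Prime ∧ ¬ p ∣ M)

lemma mem_GP (M x p : ℕ) : p ∈ GP M x ↔ p ≤ x ∧ p.Prime ∧ ¬ p ∣ M := by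
  unfold GP
  rw [mem_filter, mem_range, Nat.lt_succ_iff]

lemma pi_eq (x : ℕ) : Nat.primeCounting x = ((range (x + 1)).filter Nat.Prime).card := by
  rw [Nat.primeCounting, Nat.primeCounting', Nat.count_eq_card_filter_range]

lemma GP_card_le (M x : ℕ) : ((GP M x).card : ℝ) ≤ Nat.primeCounting x := by
  rw [pi_eq]
  have : (GP M x).card ≤ ((range (x + 1)).filter Nat.Prime).card := by
    apply card_le_card
    intro p hp
    unfold GP at hp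
    rw [mem_filter] at hp ⊢
    exact ⟨hp.1, hp.2.1⟩
  exact_mod_cast this

lemma GP_card_ge (M : ℕ) (hM : M ≠ 0) (x : ℕ) :
    (Nat.primeCounting x : ℝ) ≤ (GP M x).card + M.primeFactors.card := by
  rw [pi_eq]
  have : ((range (x + 1)).filter Nat.Prime).card ≤ (GP M x).card + M.primeFactors.card := by
    refine (card_le_card (t := GP M x ∪ M.primeFactors) ?_).trans (card_union_le _ _)
    intro p hp
    rw [mem_filter] at hp
    rw [mem_union]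
    by_cases h : p ∣ M
    · exact Or.inr (Nat.mem_primeFactors.2 ⟨hp.2, h, hM⟩)
    · left
      unfold GP
      rw [mem_filter]
      exact ⟨hp.1, hp.2, h⟩
  exact_mod_cast this

/-- one `x`, functions `f p` modulo the primes `p` whose mean values have the average `δ` -/
theorem one_gen (b : ℕ) (hb : 2 ≤ b) (A : ℕ) (γ : ℝ) (hγ0 : 0 < γ) (hγ1 : γ < 1) : ∃ W : ℕ, 1 ≤ W ∧
    ∀ (F : ℕ) (κ : ℤ), 1 ≤ F → κ ≠ 0 → ∀ (M : ℕ), M ≠ 0 → b ∣ M → ∀ f : ℕ → ℤ → ℝ,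
    (∀ p n, 0 ≤ f p n ∧ f p n ≤ 1) → (∀ p, p.Prime → ¬ p ∣ M → Per p (f p)) → ∀ δ : ℝ,
    (∀ ε : ℝ, 0 < ε → ∃ X : ℕ, ∀ x : ℕ, X ≤ x →
      |∑ p ∈ GP M x, mean p (f p) - δ * Nat.primeCounting x| ≤ ε * Nat.primeCounting x) →
    ∀ ε : ℝ, 0 < ε →
    ∃ (C : ℝ) (X₀ : ℕ), 0 < C ∧ 4 ≤ X₀ ∧ ∀ (k x : ℕ), X₀ ≤ x → x ^ W ≤ b ^ k →
    ∀ (ι : Type) (Ω : Finset ι) (w : ι → ℝ) (v : ι → ℤ), Decays b F A k γ κ Ω w v → ∀ E : Finset ι, E ⊆ Ω →
      (∀ i ∈ E, ε * (Nat.primeCounting x : ℝ) <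
        |∑ p ∈ GP M x, f p (v i) - δ * Nat.primeCounting x|) →
      ∑ i ∈ E, w i ≤ C * (Real.log x / x) := by
  classical
  obtain ⟨W, hW, h⟩ := ms b hb A γ hγ0 hγ1
  refine ⟨W, hW, fun F κ hF hκ M hM hbM f hf hper δ hδ ε hε => ?_⟩
  obtain ⟨C, hC, h1⟩ := h F κ hF hκ
  obtain ⟨X, hX⟩ := hδ (ε / 2) (by positivity)
  refine ⟨16 * (1 + 8 * C) / ε ^ 2, X + b + 4, by positivity, by omega,
    fun k x hx hxW ι Ω w v hdec E hE hbig => ?_⟩
  have hx4 : 4 ≤ x := by omega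
  have hxb : b ≤ x := by omega
  obtain ⟨hpi, hsq, hinv⟩ := pi_lower' x hx4
  have h2 := h1 k x hxb hxW ι Ω w v hdec (GP M x) (by
    intro p hp
    rw [mem_GP] at hp
    exact ⟨hp.2.1, hp.1, fun h => hp.2.2 (h.trans hbM)⟩) f hf (by
    intro p hp
    rw [mem_GP] at hp
    exact hper p hp.2.1 hp.2.2)
  have hS : ∀ i ∈ E, (ε / 2 * (Nat.primeCounting x : ℝ)) ^ 2 ≤
      (∑ p ∈ GP M x, (f p (v i) - mean p (f p))) ^ 2 := by
    intro i hi
    rw [← sq_abs (∑ p ∈ GP M x, (f p (v i) - mean p (f p)))]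
    apply pow_le_pow_left₀ (by positivity)
    have h3 := hbig i hi
    have h5 := hX x (by omega)
    rw [sum_sub_distrib]
    have h7 := abs_sub_le (∑ p ∈ GP M x, f p (v i)) (∑ p ∈ GP M x, mean p (f p))
      (δ * Nat.primeCounting x)
    linarith
  have hcheb : (∑ i ∈ E, w i) * (ε / 2 * (Nat.primeCounting x : ℝ)) ^ 2 ≤ (GP M x).card + C * √x := by
    refine le_trans ?_ h2
    rw [sum_mul]
    refine (sum_le_sum fun i hi => mul_le_mul_of_nonneg_left (hS i hi) (hdec.nonneg i (hE hi))).trans ?_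
    apply sum_le_sum_of_subset_of_nonneg hE
    intro i hi _
    exact mul_nonneg (hdec.nonneg i hi) (sq_nonneg _)
  have hcard := GP_card_le M x
  have h3 : (∑ i ∈ E, w i) * (ε / 2 * (Nat.primeCounting x : ℝ)) ^ 2 ≤ (1 + 8 * C) * Nat.primeCounting x := by
    refine hcheb.trans ?_
    have := mul_le_mul_of_nonneg_left hsq hC.le
    linarith
  have h4 : (∑ i ∈ E, w i) ≤ 4 * (1 + 8 * C) / ε ^ 2 * (1 / (Nat.primeCounting x : ℝ)) := by
    have e1 : 4 * (1 + 8 * C) / ε ^ 2 * (1 / (Nat.primeCounting x : ℝ)) =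
        ((1 + 8 * C) * Nat.primeCounting x) / (ε / 2 * (Nat.primeCounting x : ℝ)) ^ 2 := by
      field_simp
      ring
    rw [e1, le_div_iff₀ (by positivity)]
    exact h3
  refine h4.trans ?_
  calc 4 * (1 + 8 * C) / ε ^ 2 * (1 / (Nat.primeCounting x : ℝ)) ≤ 4 * (1 + 8 * C) / ε ^ 2 * (4 * Real.log x / x) :=
        mul_le_mul_of_nonneg_left hinv (by positivity)
    _ = _ := by ring

/-- a counting function at all `x` is controlled by its values at the points of the grid -/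
lemma coreG (N : ℕ → ℕ) (hN : Monotone N) (δ : ℝ) {ε ε₁ ρ : ℝ} (hε₁ : 0 < ε₁) (hε₁1 : ε₁ ≤ 1)
    (hε : (|δ| + 3) * ε₁ ≤ ε) (hρ : 1 < ρ) (hρ2 : ρ ≤ 2) {X J0 : ℕ}
    (hpi : ∀ x y : ℕ, X ≤ x → x ≤ y → (y : ℝ) ≤ ρ ^ 2 * x →
      (Nat.primeCounting y : ℝ) ≤ (1 + ε₁) * Nat.primeCounting x)
    (hJ0 : X ≤ g ρ J0) (hJ1 : 1 ≤ (ρ ^ 2 - ρ) * g ρ J0) (x : ℕ) (hxX : g ρ J0 ≤ x)
    (hx : ε * (Nat.primeCounting x : ℝ) < |(N x : ℝ) - δ * (Nat.primeCounting x : ℝ)|) :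
    ∃ j : ℕ, J0 ≤ j ∧ g ρ j ≤ 4 * x ∧
      ε₁ * (Nat.primeCounting (g ρ j) : ℝ) < |(N (g ρ j) : ℝ) - δ * Nat.primeCounting (g ρ j)| := by
  classical
  have hρ0 : 0 < ρ := by linarith
  have hg1 := g_one_le hρ J0
  have hx1 : (1 : ℝ) ≤ x := hg1.trans (by exact_mod_cast hxX)
  obtain ⟨j, hj1, hj2⟩ := exists_nat_pow_near hx1 hρ
  have hJj : J0 ≤ j := by
    have h1 : ρ ^ J0 < ρ ^ (j + 1) := (g_ge J0).trans_lt (lt_of_le_of_lt (by exact_mod_cast hxX) hj2)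
    have := (pow_lt_pow_iff_right₀ hρ).1 h1
    omega
  have hgx : g ρ j ≤ x := Nat.ceil_le.2 hj1
  have hxg : x ≤ g ρ (j + 1) := by
    have : (x : ℝ) ≤ g ρ (j + 1) := hj2.le.trans (g_ge _)
    exact_mod_cast this
  have hgg : g ρ J0 ≤ g ρ j := g_mono hρ hJj
  have hρρ : 0 < ρ ^ 2 - ρ := by nlinarith
  have hstep : (g ρ (j + 1) : ℝ) ≤ ρ ^ 2 * g ρ j := by
    refine g_step (hJ1.trans ?_) hρ
    have : (g ρ J0 : ℝ) ≤ g ρ j := by exact_mod_cast hgg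
    gcongr
  have hgx' : (g ρ j : ℝ) ≤ x := by exact_mod_cast hgx
  have hgY1 : (g ρ (j + 1) : ℝ) ≤ 4 * x := by
    refine hstep.trans ?_
    have h4 : ρ ^ 2 ≤ 4 := by nlinarith
    exact mul_le_mul h4 hgx' (Nat.cast_nonneg _) (by norm_num)
  by_contra hcon
  push Not at hcon
  have ha0 := hcon j hJj (by omega)
  have ha1 := hcon (j + 1) (by omega) (by exact_mod_cast hgY1)
  have hpij : (Nat.primeCounting (g ρ (j + 1)) : ℝ) ≤ (1 + ε₁) * Nat.primeCounting (g ρ j) :=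
    hpi _ _ (hJ0.trans hgg) (hgx.trans hxg) hstep
  have hfin := interp (δ := δ) (e := ε₁) (P0 := (Nat.primeCounting (g ρ j) : ℝ))
    (P := (Nat.primeCounting x : ℝ)) (P1 := (Nat.primeCounting (g ρ (j + 1)) : ℝ))
    (A0 := (N (g ρ j) : ℝ)) (A := (N x : ℝ))
    (A1 := (N (g ρ (j + 1)) : ℝ)) hε₁ hε₁1 (Nat.cast_nonneg _)
    (by exact_mod_cast Nat.monotone_primeCounting hgx)
    (by exact_mod_cast Nat.monotone_primeCounting hxg) hpij
    (by exact_mod_cast hN hgx) (by exact_mod_cast hN hxg) ha0 ha1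
  have hlast : (|δ| + 3) * ε₁ * (Nat.primeCounting x : ℝ) ≤ ε * (Nat.primeCounting x : ℝ) := by
    gcongr
  linarith

/-- all `x`: `N v x` is the number of the primes `p ≤ x` with a condition modulo `p` on `v` -/
theorem all_gen (b : ℕ) (hb : 2 ≤ b) (A : ℕ) (γ : ℝ) (hγ0 : 0 < γ) (hγ1 : γ < 1) : ∃ W : ℕ, 1 ≤ W ∧
    ∀ (F : ℕ) (κ : ℤ), 1 ≤ F → κ ≠ 0 → ∀ (M : ℕ), M ≠ 0 → b ∣ M → ∀ f : ℕ → ℤ → ℝ,
    (∀ p n, 0 ≤ f p n ∧ f p n ≤ 1) → (∀ p, p.Prime → ¬ p ∣ M → Per p (f p)) → ∀ δ : ℝ,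
    (∀ ε : ℝ, 0 < ε → ∃ X : ℕ, ∀ x : ℕ, X ≤ x →
      |∑ p ∈ GP M x, mean p (f p) - δ * Nat.primeCounting x| ≤ ε * Nat.primeCounting x) →
    ∀ (N : ℤ → ℕ → ℕ), (∀ v, Monotone (N v)) → ∀ (K : ℝ),
    (∀ v x, |(N v x : ℝ) - ∑ p ∈ GP M x, f p v| ≤ K) →
    ∀ ε : ℝ, 0 < ε →
    ∃ (C : ℝ) (X₀ : ℕ), 0 < C ∧ 2 ≤ X₀ ∧ ∀ (k X : ℕ), X₀ ≤ X →
    ∀ (ι : Type) (Ω : Finset ι) (w : ι → ℝ) (v : ι → ℤ), Decays b F A k γ κ Ω w v → ∀ E : Finset ι, E ⊆ Ω →
      (∀ i ∈ E, ∃ x : ℕ, X ≤ x ∧ x ^ W ≤ b ^ k ∧ ε * (Nat.primeCounting x : ℝ) <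
        |(N (v i) x : ℝ) - δ * (Nat.primeCounting x : ℝ)|) →
      ∑ i ∈ E, w i ≤ C * (Real.log X / X) := by
  classical
  obtain ⟨W, hW, h⟩ := one_gen b hb A γ hγ0 hγ1
  refine ⟨2 * W, by omega, fun F κ hF hκ M hM hbM f hf hper δ hδ N hN K hK ε hε => ?_⟩
  have hd := abs_nonneg δ
  obtain ⟨ε₁, hε₁def⟩ : ∃ ε₁ : ℝ, ε₁ = min 1 (ε / (|δ| + 3)) := ⟨_, rfl⟩
  have hε₁ : 0 < ε₁ := by rw [hε₁def]; exact lt_min one_pos (by positivity)
  have hε₁1 : ε₁ ≤ 1 := by rw [hε₁def]; exact min_le_left _ _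
  have hεε : (|δ| + 3) * ε₁ ≤ ε := by
    have : ε₁ ≤ ε / (|δ| + 3) := by rw [hε₁def]; exact min_le_right _ _
    rw [le_div_iff₀ (by positivity)] at this
    linarith
  obtain ⟨C, X1, hC, hX1, h1⟩ := h F κ hF hκ M hM hbM f hf hper δ hδ (ε₁ / 2) (by positivity)
  obtain ⟨ρ, hρ, hρ2, X2, hX2, hpi⟩ := pi_ratio ε₁ hε₁
  obtain ⟨X3, hX34, hX3⟩ := small_ev K (ε₁ / 2) (by positivity)
  have hρ0 : 0 < ρ := by linarith
  have hρρ : 0 < ρ ^ 2 - ρ := by nlinarith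
  have hlρ : 0 < Real.log ρ := Real.log_pos hρ
  obtain ⟨X, hX⟩ : ∃ X, X = max (max X1 X2) X3 := ⟨_, rfl⟩
  have hXX1 : X1 ≤ X := by rw [hX]; exact (le_max_left _ _).trans (le_max_left _ _)
  have hXX2 : X2 ≤ X := by rw [hX]; exact (le_max_right _ _).trans (le_max_left _ _)
  have hXX3 : X3 ≤ X := by rw [hX]; exact le_max_right _ _
  obtain ⟨S, hS, hgrid⟩ := grid_sum ρ hρ hρ2
  obtain ⟨Q, hQ⟩ := exists_nat_ge (1 / (ρ ^ 2 - ρ))
  refine ⟨C * (S * ((1 / Real.log ρ + 1) * 2)), 2 * (X + Q) + 4, by positivity, by omega, ?_⟩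
  intro k Y hY ι Ω w v hdec E hE hbad
  have hY4 : 4 ≤ Y := by omega
  have hY1 : (1 : ℝ) ≤ Y := by exact_mod_cast (by omega : 1 ≤ Y)
  have hY0 : (0 : ℝ) < Y := by linarith
  obtain ⟨J0, hJ1, hJ2⟩ := exists_nat_pow_near hY1 hρ
  have hlogY : 1 ≤ Real.log Y := by
    rw [Real.le_log_iff_exp_le hY0]
    have : (4 : ℝ) ≤ Y := by exact_mod_cast hY4
    linarith [Real.exp_one_lt_d9]
  have hhalf : (Y : ℝ) / 2 ≤ ρ ^ J0 := by
    rw [pow_succ] at hJ2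
    have h2 : ρ ^ J0 * ρ ≤ ρ ^ J0 * 2 := mul_le_mul_of_nonneg_left hρ2 (by positivity)
    linarith
  have hYr : 2 * ((X : ℝ) + Q) + 4 ≤ Y := by exact_mod_cast hY
  have hXQ : (X : ℝ) + Q ≤ g ρ J0 := by
    have := g_ge (ρ := ρ) J0
    linarith
  have hgJ0X : X ≤ g ρ J0 := by
    have h2 : (X : ℝ) ≤ g ρ J0 := by
      have : (0 : ℝ) ≤ Q := Nat.cast_nonneg _
      linarith
    exact_mod_cast h2
  have hgJ01 : 1 ≤ (ρ ^ 2 - ρ) * g ρ J0 := by
    have h2 : 1 / (ρ ^ 2 - ρ) ≤ g ρ J0 := by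
      have : (0 : ℝ) ≤ X := Nat.cast_nonneg _
      linarith
    rw [div_le_iff₀ hρρ] at h2
    linarith
  have hgY : g ρ J0 ≤ Y := Nat.ceil_le.2 hJ1
  obtain ⟨L, hL⟩ := pow_unbounded_of_one_lt ((b : ℝ) ^ k) hρ
  obtain ⟨I, hI⟩ : ∃ I : Finset ℕ, I = (range L).filter (fun j => J0 ≤ j ∧ (g ρ j) ^ W ≤ b ^ k) := ⟨_, rfl⟩
  obtain ⟨EE, hEE⟩ : ∃ EE : ℕ → Finset ι, EE = fun j => E.filter (fun i =>
    ε₁ * (Nat.primeCounting (g ρ j) : ℝ) < |(N (v i) (g ρ j) : ℝ) - δ * Nat.primeCounting (g ρ j)|) := ⟨_, rfl⟩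
  have hcover : E ⊆ I.biUnion EE := by
    intro i hi
    obtain ⟨x, hx1, hx2, hx3⟩ := hbad i hi
    obtain ⟨j, hj1, hj2, hj3⟩ := coreG (N (v i)) (hN _) δ hε₁ hε₁1 hεε hρ hρ2
      (fun x y hx => hpi x y (hXX2.trans hx)) hgJ0X hgJ01 x (hgY.trans hx1) hx3
    rw [mem_biUnion]
    have hgW : (g ρ j) ^ W ≤ b ^ k := by
      calc (g ρ j) ^ W ≤ (x * x) ^ W := by
            apply Nat.pow_le_pow_left
            exact hj2.trans (Nat.mul_le_mul_right _ (by omega))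
        _ = x ^ (2 * W) := by rw [← sq, ← pow_mul]
        _ ≤ b ^ k := hx2
    refine ⟨j, ?_, ?_⟩
    · rw [hI, mem_filter, mem_range]
      refine ⟨?_, hj1, hgW⟩
      by_contra hcon
      push Not at hcon
      have h2 : ρ ^ L ≤ ρ ^ j := pow_le_pow_right₀ hρ.le hcon
      have h3 := g_ge (ρ := ρ) j
      have h4 : g ρ j ≤ (g ρ j) ^ W := Nat.le_self_pow (by omega) _
      have h5 : (g ρ j : ℝ) ≤ (b : ℝ) ^ k := by exact_mod_cast h4.trans hgW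
      linarith
    · rw [hEE, mem_filter]
      exact ⟨hi, hj3⟩
  have hw0 : ∀ i ∈ E, 0 ≤ w i := fun i hi => hdec.nonneg i (hE hi)
  have h2 : ∑ i ∈ E, w i ≤ ∑ j ∈ I, ∑ i ∈ EE j, w i := by
    calc ∑ i ∈ E, w i ≤ ∑ i ∈ I.biUnion EE, w i := by
          apply sum_le_sum_of_subset_of_nonneg hcover
          intro i hi _
          rw [mem_biUnion] at hi
          obtain ⟨j, _, hj⟩ := hi
          rw [hEE, mem_filter] at hj
          exact hw0 i hj.1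
      _ ≤ _ := by
          have h3 : ∀ (s : Finset ℕ), ∑ i ∈ s.biUnion EE, w i ≤ ∑ j ∈ s, ∑ i ∈ EE j, w i := by
            intro s
            induction s using Finset.induction_on with
            | empty => simp
            | insert a s ha ih =>
              rw [biUnion_insert, sum_insert ha]
              have h4 := sum_union_inter (s₁ := EE a) (s₂ := s.biUnion EE) (f := w)
              have h5 : 0 ≤ ∑ i ∈ EE a ∩ s.biUnion EE, w i := by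
                apply sum_nonneg
                intro i hi
                rw [mem_inter] at hi
                have := hi.1
                rw [hEE, mem_filter] at this
                exact hw0 i this.1
              linarith
          exact h3 I
  have h3 : ∀ j ∈ I, ∑ i ∈ EE j, w i ≤ C * (Real.log (g ρ j) / (g ρ j)) := by
    intro j hj
    rw [hI, mem_filter] at hj
    have hgX : X ≤ g ρ j := hgJ0X.trans (g_mono hρ hj.2.1)
    have hgj : X1 ≤ g ρ j := hXX1.trans hgX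
    apply h1 k (g ρ j) hgj hj.2.2 ι Ω w v hdec (EE j)
    · rw [hEE]
      exact (filter_subset _ _).trans hE
    · intro i hi
      rw [hEE, mem_filter] at hi
      have h4 := hi.2
      have h5 := hK (v i) (g ρ j)
      have h6 := hX3 (g ρ j) (hXX3.trans hgX)
      have h7 : 0 ≤ Real.log (g ρ j) := Real.log_nonneg (g_one_le hρ j)
      have h8 := abs_sub_le (N (v i) (g ρ j) : ℝ) (∑ p ∈ GP M (g ρ j), f p (v i))
        (δ * Nat.primeCounting (g ρ j))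
      linarith
  refine h2.trans ((sum_le_sum h3).trans ?_)
  rw [← mul_sum, mul_assoc]
  apply mul_le_mul_of_nonneg_left _ hC.le
  refine (hgrid J0 I (fun j hj => by rw [hI, mem_filter] at hj; exact hj.2.1)).trans ?_
  rw [mul_assoc]
  apply mul_le_mul_of_nonneg_left _ hS.le
  have h4 : (1 / ρ) ^ J0 ≤ 2 / Y := by
    rw [div_pow, one_pow, div_le_div_iff₀ (by positivity) hY0]
    linarith
  have h5 : (1 : ℝ) + J0 ≤ (1 / Real.log ρ + 1) * Real.log Y := by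
    have h6 : (J0 : ℝ) * Real.log ρ ≤ Real.log Y := by
      rw [← Real.log_pow]
      exact Real.log_le_log (by positivity) hJ1
    have h7 : (J0 : ℝ) ≤ Real.log Y / Real.log ρ := by
      rw [le_div_iff₀ hlρ]
      exact h6
    have h8 : (1 / Real.log ρ + 1) * Real.log Y = Real.log Y / Real.log ρ + Real.log Y := by ring
    rw [h8]
    linarith
  calc (1 + (J0 : ℝ)) * (1 / ρ) ^ J0 ≤ ((1 / Real.log ρ + 1) * Real.log Y) * (2 / Y) :=
        mul_le_mul h5 h4 (by positivity) (by positivity)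
    _ = _ := by ring

end Pool.Agent.R318.PR
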