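import Pool.Agent.R318.PR.Weil2

/-! # Integer polynomials with a simple complex root, modulo primes -/

set_option autoImplicit false

namespace Pool.Agent.R318.PR

open Polynomial

/-- clearing denominators -/
lemma clear (q : ℚ[X]) : ∃ (N : ℤ) (Q : ℤ[X]), N ≠ 0 ∧ Q.map (Int.castRingHom ℚ) = C (N : ℚ) * q := by
  obtain ⟨b, hb⟩ := IsLocalization.integerNormalization_map_to_map (nonZeroDivisors ℤ) q
  refine ⟨(b : ℤ), IsLocalization.integerNormalization (nonZeroDivisors ℤ) q,
    nonZeroDivisors.ne_zero b.2, ?_⟩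
  have h1 : (algebraMap ℤ ℚ) = Int.castRingHom ℚ := rfl
  rw [h1] at hb
  rw [hb]
  ext n
  rw [coeff_smul, coeff_C_mul]
  simp

/-- the integral identities behind a simple factor -/
lemma integral_factor (F : ℤ[X]) (z : ℂ) (h0 : aeval z F = 0) (h1 : aeval z (derivative F) ≠ 0) :
    ∃ (N : ℤ) (G H A B : ℤ[X]), N ≠ 0 ∧ 0 < G.natDegree ∧ C N * F = G * H ∧
      A * G + B * derivative F = C N := by
  have hF0 : F ≠ 0 := by
    rintro rfl
    simp at h1
  set FQ : ℚ[X] := F.map (Int.castRingHom ℚ) with hFQ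
  have hinj : Function.Injective (Int.castRingHom ℚ) := RingHom.injective_int _
  have hFQ0 : FQ ≠ 0 := by
    rw [hFQ]
    exact (Polynomial.map_ne_zero_iff hinj).2 hF0
  have e1 : aeval z FQ = 0 := by
    rw [hFQ, ← h0, aeval_def, aeval_def, eval₂_map]
    congr 1
  have hzint : IsIntegral ℚ z := by
    have : IsAlgebraic ℚ z := ⟨FQ, hFQ0, e1⟩
    exact this.isIntegral
  set g : ℚ[X] := minpoly ℚ z with hg
  have hgirr : Irreducible g := minpoly.irreducible hzint
  have hgF : g ∣ FQ := minpoly.dvd ℚ z e1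
  have hgF' : ¬ g ∣ derivative FQ := by
    intro h
    apply h1
    obtain ⟨r, hr⟩ := h
    have e2 : aeval z (derivative FQ) = 0 := by
      rw [hr, map_mul, hg, minpoly.aeval, zero_mul]
    rw [← e2, hFQ, derivative_map, aeval_def, aeval_def, eval₂_map]
    congr 1
  have hcop : IsCoprime g (derivative FQ) := by
    rw [hgirr.coprime_iff_not_dvd]
    exact hgF'
  obtain ⟨h, hh⟩ := hgF
  obtain ⟨u, v, huv⟩ := hcop
  obtain ⟨n1, G, hn1, hG⟩ := clear g
  obtain ⟨n2, H, hn2, hH⟩ := clear h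
  obtain ⟨n3, U, hn3, hU⟩ := clear u
  obtain ⟨n4, V, hn4, hV⟩ := clear v
  have hmapinj : Function.Injective (Polynomial.map (Int.castRingHom ℚ)) :=
    Polynomial.map_injective _ hinj
  refine ⟨n1 * n2 * n3 * n4, G, C (n3 * n4) * H, C (n2 * n4) * U, C (n1 * n2 * n3) * V,
    mul_ne_zero (mul_ne_zero (mul_ne_zero hn1 hn2) hn3) hn4, ?_, ?_, ?_⟩
  · have : (G.map (Int.castRingHom ℚ)).natDegree = G.natDegree :=
      natDegree_map_eq_of_injective hinj G
    rw [← this, hG, natDegree_C_mul (by exact_mod_cast hn1)]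
    exact hgirr.natDegree_pos
  · apply hmapinj
    simp only [Polynomial.map_mul, map_C, hG, hH, ← hFQ, hh]
    simp only [eq_intCast, Int.cast_mul, map_mul]
    ring
  · apply hmapinj
    simp only [Polynomial.map_mul, Polynomial.map_add, map_C, hG, hU, hV, ← derivative_map, ← hFQ]
    simp only [eq_intCast, Int.cast_mul, map_mul]
    linear_combination (C (n1 : ℚ) * C (n2 : ℚ) * C (n3 : ℚ) * C (n4 : ℚ)) * huv

/-- modulo almost all primes there is an irreducible factor of multiplicity one -/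
theorem red (F : ℤ[X]) (z : ℂ) (h0 : aeval z F = 0) (h1 : aeval z (derivative F) ≠ 0) :
    ∃ M : ℕ, M ≠ 0 ∧ ∀ (p : ℕ) [Fact p.Prime], ¬ p ∣ M →
      ((F.leadingCoeff : ℤ) : ZMod p) ≠ 0 ∧ ∃ Q : (ZMod p)[X], Irreducible Q ∧
        Q ∣ F.map (Int.castRingHom (ZMod p)) ∧ ¬ Q ^ 2 ∣ F.map (Int.castRingHom (ZMod p)) := by
  have hF0 : F ≠ 0 := by
    rintro rfl
    simp at h1
  obtain ⟨N, G, H, A, B, hN, hG, hNF, hAB⟩ := integral_factor F z h0 h1
  have hG0 : G ≠ 0 := by
    rintro rfl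
    simp at hG
  refine ⟨(N * G.leadingCoeff * F.leadingCoeff).natAbs, ?_, ?_⟩
  · rw [Int.natAbs_ne_zero]
    exact mul_ne_zero (mul_ne_zero hN (leadingCoeff_ne_zero.2 hG0)) (leadingCoeff_ne_zero.2 hF0)
  · intro p hp hpM
    have hnd : ∀ a : ℤ, a ∣ N * G.leadingCoeff * F.leadingCoeff → ((a : ℤ) : ZMod p) ≠ 0 := by
      intro a ha h
      apply hpM
      rw [ZMod.intCast_zmod_eq_zero_iff_dvd] at h
      exact Int.natCast_dvd.1 (h.trans ha)
    have hN' : ((N : ℤ) : ZMod p) ≠ 0 := hnd N ⟨G.leadingCoeff * F.leadingCoeff, by ring⟩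
    have hG' : ((G.leadingCoeff : ℤ) : ZMod p) ≠ 0 :=
      hnd _ ⟨N * F.leadingCoeff, by ring⟩
    have hF' : ((F.leadingCoeff : ℤ) : ZMod p) ≠ 0 :=
      hnd _ ⟨N * G.leadingCoeff, by ring⟩
    refine ⟨hF', ?_⟩
    set φ := Int.castRingHom (ZMod p) with hφ
    have hGd : (G.map φ).natDegree = G.natDegree := by
      apply natDegree_map_of_leadingCoeff_ne_zero
      simpa [hφ] using hG'
    obtain ⟨Q, hQ, hQG⟩ : ∃ Q : (ZMod p)[X], Irreducible Q ∧ Q ∣ G.map φ := by
      apply WfDvdMonoid.exists_irreducible_factor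
      · intro hu
        have := natDegree_eq_zero_of_isUnit hu
        omega
      · intro h
        rw [h] at hGd
        simp at hGd
        omega
    have hNu : IsUnit (C ((N : ℤ) : ZMod p)) := by
      rw [isUnit_C]
      exact isUnit_iff_ne_zero.2 hN'
    have e1 : C ((N : ℤ) : ZMod p) * F.map φ = G.map φ * H.map φ := by
      have := congrArg (Polynomial.map φ) hNF
      rw [Polynomial.map_mul, Polynomial.map_mul, map_C] at this
      exact this
    have e2 : A.map φ * G.map φ + B.map φ * derivative (F.map φ) = C ((N : ℤ) : ZMod p) := by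
      have := congrArg (Polynomial.map φ) hAB
      rw [Polynomial.map_add, Polynomial.map_mul, Polynomial.map_mul, map_C, ← derivative_map] at this
      exact this
    refine ⟨Q, hQ, ?_, ?_⟩
    · have h2 : Q ∣ C ((N : ℤ) : ZMod p) * F.map φ := by
        rw [e1]
        exact hQG.mul_right _
      exact (hNu.dvd_mul_left).1 h2
    · intro h2
      have h3 : Q ∣ derivative (F.map φ) := by
        obtain ⟨R, hR⟩ := h2
        rw [hR]
        refine ⟨(2 : (ZMod p)[X]) * derivative Q * R + Q * derivative R, ?_⟩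
        rw [derivative_mul, derivative_pow]
        push_cast
        simp only [Nat.cast_ofNat, map_ofNat]
        ring
      have h4 : Q ∣ C ((N : ℤ) : ZMod p) := by
        rw [← e2]
        exact dvd_add (hQG.mul_left _) (h3.mul_left _)
      exact hQ.not_isUnit (isUnit_of_dvd_unit h4 hNu)

/-- Weil's bound for an integer polynomial with a simple root -/
theorem weilF (F : ℤ[X]) (z : ℂ) (h0 : aeval z F = 0) (h1 : aeval z (derivative F) ≠ 0) :
    ∃ M : ℕ, M ≠ 0 ∧ ∀ (p : ℕ) [Fact p.Prime], ¬ p ∣ M →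
      (∀ χ : DirichletCharacter ℂ p, χ ≠ 1 →
        ‖∑ t ∈ Finset.range p, χ ((F.eval (t : ℤ) : ℤ) : ZMod p)‖ ≤ F.natDegree * Real.sqrt p) ∧
      ((Finset.range p).filter (fun t : ℕ => (p : ℤ) ∣ F.eval (t : ℤ))).card ≤ F.natDegree := by
  classical
  obtain ⟨M, hM, h⟩ := red F z h0 h1
  refine ⟨M, hM, fun p hp hpM => ?_⟩
  obtain ⟨hlc, Q, hQ, hQF, hQ2⟩ := h p hpM
  set φ := Int.castRingHom (ZMod p) with hφ
  have hlc' : φ F.leadingCoeff ≠ 0 := by simpa [hφ] using hlc
  have hdeg : (F.map φ).natDegree = F.natDegree := natDegree_map_of_leadingCoeff_ne_zero φ hlc'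
  have hF0 : F.map φ ≠ 0 := by
    intro h2
    have := leadingCoeff_map_of_leadingCoeff_ne_zero φ hlc'
    rw [h2, leadingCoeff_zero] at this
    exact hlc' this.symm
  have hev : ∀ t : ℤ, (F.map φ).eval ((t : ℤ) : ZMod p) = ((F.eval t : ℤ) : ZMod p) := by
    intro t
    rw [eval_intCast_map]
    rfl
  refine ⟨fun χ hχ => ?_, ?_⟩
  · have hsum : ∑ t ∈ Finset.range p, χ ((F.eval (t : ℤ) : ℤ) : ZMod p) =
        ∑ a : ZMod p, χ ((F.map φ).eval a) := by
      apply Finset.sum_nbij' (fun t => ((t : ℕ) : ZMod p)) (fun a => a.val)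
      · intro t _; exact Finset.mem_univ _
      · intro a _; exact Finset.mem_range.2 (ZMod.val_lt a)
      · intro t ht; exact ZMod.val_cast_of_lt (Finset.mem_range.1 ht)
      · intro a _; exact ZMod.natCast_zmod_val a
      · intro t _
        rw [← hev]
        simp
    rw [hsum]
    set ℓ := (F.map φ).leadingCoeff with hℓ
    have hℓ0 : ℓ ≠ 0 := leadingCoeff_ne_zero.2 hF0
    set P : (ZMod p)[X] := C ℓ⁻¹ * F.map φ with hP
    have hPm : P.Monic := by
      rw [hP, Monic, leadingCoeff_mul, leadingCoeff_C, ← hℓ, inv_mul_cancel₀ hℓ0]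
    have hFP : F.map φ = C ℓ * P := by
      rw [hP, ← mul_assoc, ← C_mul, mul_inv_cancel₀ hℓ0, C_1, one_mul]
    have hu : IsUnit (C ℓ⁻¹) := by
      rw [isUnit_C]
      exact isUnit_iff_ne_zero.2 (inv_ne_zero hℓ0)
    have hQP : Q ∣ P := hQF.mul_left _
    have hQP2 : ¬ Q ^ 2 ∣ P := by
      intro h2
      exact hQ2 ((hu.dvd_mul_left).1 h2)
    have hPd : P.natDegree = F.natDegree := by
      rw [hP, natDegree_C_mul (inv_ne_zero hℓ0), hdeg]
    have e1 : ∑ a : ZMod p, χ ((F.map φ).eval a) = χ ℓ * ∑ a : ZMod p, χ (P.eval a) := by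
      rw [Finset.mul_sum]
      apply Finset.sum_congr rfl
      intro a _
      rw [hFP, eval_mul, eval_C, map_mul]
    have hord : orderOf χ ∣ Fintype.card (ZMod p) - 1 := MulChar.orderOf_dvd_card_sub_one (ZMod p) χ
    have hord0 : orderOf χ ≠ 1 := fun h2 => hχ (orderOf_eq_one_iff.1 h2)
    have hord1 : 0 < orderOf χ := orderOf_pos χ
    have hw := weil2 (orderOf χ) (by omega) hord χ hχ (pow_orderOf_eq_one χ) P Q hPm hQ hQP hQP2
    rw [e1, norm_mul]
    have h3 : ‖χ ℓ‖ ≤ 1 := DirichletCharacter.norm_le_one χ _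
    rw [hPd, ZMod.card] at hw
    calc ‖χ ℓ‖ * ‖∑ a : ZMod p, χ (P.eval a)‖ ≤ 1 * (F.natDegree * Real.sqrt p) :=
          mul_le_mul h3 hw (norm_nonneg _) zero_le_one
      _ = _ := one_mul _
  · have h3 : ((Finset.range p).filter (fun t : ℕ => (p : ℤ) ∣ F.eval (t : ℤ))).card ≤
        (F.map φ).roots.toFinset.card := by
      apply Finset.card_le_card_of_injOn (fun t => ((t : ℕ) : ZMod p))
      · intro t ht
        rw [Finset.mem_coe, Finset.mem_filter] at ht
        rw [Finset.mem_coe, Multiset.mem_toFinset, mem_roots hF0, IsRoot.def]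
        have := hev t
        rw [(ZMod.intCast_zmod_eq_zero_iff_dvd _ p).2 ht.2] at this
        simpa using this
      · intro t ht s hs hts
        rw [Finset.mem_coe, Finset.mem_filter, Finset.mem_range] at ht hs
        simp only at hts
        rw [← ZMod.val_cast_of_lt ht.1, ← ZMod.val_cast_of_lt hs.1, hts]
    refine h3.trans ((Multiset.toFinset_card_le _).trans ((card_roots' _).trans ?_))
    rw [hdeg]

end Pool.Agent.R318.PR
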