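import Pool.Agent.R318.PR.Gen
import Pool.Agent.R318.PR.Red

/-! # Mean values modulo primes of functions of the values of a polynomial -/

set_option autoImplicit false

namespace Pool.Agent.R318.PR

open Finset Filter Pool.Agent.R459.Eq Pool.Agent.H730R2.AA

/-- character sums of the values of `F`, and the number of its zeros, are small modulo `p` -/
def Good (F : Polynomial ℤ) (d p : ℕ) : Prop :=
  (∀ χ : DirichletCharacter ℂ p, χ ≠ 1 →
    ‖∑ t ∈ range p, χ ((F.eval (t : ℤ) : ℤ) : ZMod p)‖ ≤ d * Real.sqrt p) ∧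
  ((range p).filter (fun t : ℕ => (p : ℤ) ∣ F.eval (t : ℤ))).card ≤ d

lemma mean_le (p : ℕ) [Fact p.Prime] (F : Polynomial ℤ) (d : ℕ) (hg : Good F d p)
    (f : ℤ → ℝ) (hf : ∀ n, 0 ≤ f n ∧ f n ≤ 1) (c T : ℝ) (hc0 : 0 ≤ c) (hc2 : c ≤ 2) (hT : 1 ≤ T)
    (β : DirichletCharacter ℂ p → ℂ) (hβ : ∑ χ ∈ NT p, ‖β χ‖ ≤ T)
    (hexp : ∀ n : ℤ, ¬ (p : ℤ) ∣ n → (f n : ℂ) = (c : ℂ) + ∑ χ ∈ NT p, β χ * χ ((n : ℤ) : ZMod p)) :
    |mean p (fun n => f (F.eval n)) - c| ≤ 3 * d * T / Real.sqrt p := by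
  classical
  obtain ⟨hW, hr⟩ := hg
  have hpp := Fact.out (p := p.Prime)
  have hp0 : (0 : ℝ) < p := by exact_mod_cast hpp.pos
  have hp1 : (1 : ℝ) ≤ p := by exact_mod_cast hpp.one_le
  have hs0 : 0 < Real.sqrt p := Real.sqrt_pos.2 hp0
  have hs1 : 1 ≤ Real.sqrt p := by rw [Real.one_le_sqrt]; exact hp1
  have hss : Real.sqrt p * Real.sqrt p = p := Real.mul_self_sqrt hp0.le
  -- the pointwise difference
  have h1 : ∀ t ∈ range p, ‖((f (F.eval (t : ℤ)) : ℝ) : ℂ) -
      ((c : ℂ) + ∑ χ ∈ NT p, β χ * χ ((F.eval (t : ℤ) : ℤ) : ZMod p))‖ ≤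
      (if (p : ℤ) ∣ F.eval (t : ℤ) then 2 else 0) := by
    intro t _
    split_ifs with hdvd
    · have h2 : ((F.eval (t : ℤ) : ℤ) : ZMod p) = 0 := (ZMod.intCast_zmod_eq_zero_iff_dvd _ p).2 hdvd
      have h3 : ∑ χ ∈ NT p, β χ * χ ((F.eval (t : ℤ) : ℤ) : ZMod p) = 0 := by
        apply sum_eq_zero
        intro χ _
        rw [h2, MulChar.map_zero, mul_zero]
      rw [h3, add_zero, ← Complex.ofReal_sub, Complex.norm_real, Real.norm_eq_abs, abs_le]
      have := hf (F.eval (t : ℤ))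
      constructor <;> linarith [this.1, this.2]
    · rw [hexp _ hdvd, sub_self, norm_zero]
  have h2 : ‖∑ t ∈ range p, (((f (F.eval (t : ℤ)) : ℝ) : ℂ) -
      ((c : ℂ) + ∑ χ ∈ NT p, β χ * χ ((F.eval (t : ℤ) : ℤ) : ZMod p)))‖ ≤ 2 * d := by
    refine (norm_sum_le _ _).trans ((sum_le_sum h1).trans ?_)
    rw [← sum_filter, sum_const, nsmul_eq_mul]
    have : ((((range p).filter (fun t : ℕ => (p : ℤ) ∣ F.eval (t : ℤ))).card : ℕ) : ℝ) ≤ d := by
      exact_mod_cast hr
    linarith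
  have h3 : ‖∑ t ∈ range p, ∑ χ ∈ NT p, β χ * χ ((F.eval (t : ℤ) : ℤ) : ZMod p)‖ ≤
      T * (d * Real.sqrt p) := by
    rw [sum_comm]
    refine (norm_sum_le _ _).trans ?_
    calc ∑ χ ∈ NT p, ‖∑ t ∈ range p, β χ * χ ((F.eval (t : ℤ) : ℤ) : ZMod p)‖ ≤
        ∑ χ ∈ NT p, ‖β χ‖ * (d * Real.sqrt p) := by
          apply sum_le_sum
          intro χ hχ
          have hχ1 : χ ≠ 1 := by
            simp only [NT, mem_filter] at hχ
            exact hχ.2
          rw [← mul_sum, norm_mul]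
          exact mul_le_mul_of_nonneg_left (hW χ hχ1) (norm_nonneg _)
      _ = (∑ χ ∈ NT p, ‖β χ‖) * (d * Real.sqrt p) := by rw [sum_mul]
      _ ≤ _ := mul_le_mul_of_nonneg_right hβ (by positivity)
  have h4 : ‖((∑ t ∈ range p, f (F.eval (t : ℤ)) - p * c : ℝ) : ℂ)‖ ≤ 2 * d + T * (d * Real.sqrt p) := by
    have e : ((∑ t ∈ range p, f (F.eval (t : ℤ)) - p * c : ℝ) : ℂ) =
        ∑ t ∈ range p, (((f (F.eval (t : ℤ)) : ℝ) : ℂ) -
          ((c : ℂ) + ∑ χ ∈ NT p, β χ * χ ((F.eval (t : ℤ) : ℤ) : ZMod p))) +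
        ∑ t ∈ range p, ∑ χ ∈ NT p, β χ * χ ((F.eval (t : ℤ) : ℤ) : ZMod p) := by
      rw [sum_sub_distrib, sum_add_distrib, sum_const, card_range, nsmul_eq_mul]
      push_cast
      ring
    rw [e]
    exact (norm_add_le _ _).trans (add_le_add h2 h3)
  rw [Complex.norm_real, Real.norm_eq_abs] at h4
  have h5 : mean p (fun n => f (F.eval n)) - c = (∑ t ∈ range p, f (F.eval (t : ℤ)) - p * c) / p := by
    unfold mean
    field_simp
  rw [h5, abs_div, abs_of_pos hp0, div_le_div_iff₀ hp0 hs0]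
  have hd0 : (0 : ℝ) ≤ d := Nat.cast_nonneg _
  have h6 : 2 * d + T * (d * Real.sqrt p) ≤ 3 * d * T * Real.sqrt p := by
    have h7 : (1 : ℝ) ≤ T * Real.sqrt p := one_le_mul_of_one_le_of_one_le hT hs1
    nlinarith
  calc |∑ t ∈ range p, f (F.eval (t : ℤ)) - p * c| * Real.sqrt p ≤
      (3 * d * T * Real.sqrt p) * Real.sqrt p := by
        apply mul_le_mul_of_nonneg_right (h4.trans h6) hs0.le
    _ = 3 * d * T * p := by rw [mul_assoc, hss]

/-- the residue of an integer -/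
lemma natres (p : ℕ) (hp : 0 < p) (n : ℤ) : ∃ m : ℕ, (p : ℤ) ∣ n - m := by
  refine ⟨(n % p).toNat, ?_⟩
  rw [Int.toNat_of_nonneg (Int.emod_nonneg _ (by omega))]
  exact Int.dvd_self_sub_emod

/-- `D F(n) ^ 2` is a primitive root -/
lemma mean_sq (p : ℕ) (hpp : p.Prime) (hp : p ≠ 2) (D : ℤ) (hD : ¬ (p : ℤ) ∣ D) (F : Polynomial ℤ)
    (d : ℕ) (hg : Good F d p) :
    |mean p (fun n => ind D p (F.eval n)) - cc D p| ≤
      3 * d * ((p - 1).divisors.card : ℝ) / Real.sqrt p := by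
  classical
  have : Fact p.Prime := ⟨hpp⟩
  obtain ⟨β, h1, h2, _⟩ := expand p hp D hD
  have hcc := cc_mem D p
  have hdiv : (1 : ℝ) ≤ ((p - 1).divisors.card : ℝ) := by
    have h3 : 0 < (p - 1).divisors.card := by
      rw [card_pos, Nat.nonempty_divisors]
      have := hpp.two_le
      omega
    exact_mod_cast h3
  refine mean_le p F d hg (ind D p) (ind_mem D p) (cc D p) _ hcc.1 hcc.2 hdiv β ?_ ?_
  · refine le_trans ?_ h2
    apply sum_le_sum_of_subset_of_nonneg
    · intro χ _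
      exact mem_univ _
    · intro χ _ _
      exact norm_nonneg _
  · intro n hn
    obtain ⟨m, hm⟩ := natres p hpp.pos n
    rw [ind_per D p n m hm]
    have e1 : ((n : ℤ) : ZMod p) = ((m : ℕ) : ZMod p) := by
      have := (ZMod.intCast_eq_intCast_iff_dvd_sub (m : ℤ) n p).2 hm
      rw [← this]
      simp
    have hm' : ¬ p ∣ m := by
      intro h
      apply hn
      have := dvd_add hm (Int.natCast_dvd_natCast.2 h)
      rwa [sub_add_cancel] at this
    have h3 := h1 m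
    rw [if_neg hm'] at h3
    rw [e1]
    unfold cc
    rw [← h3]
    unfold ind
    split_ifs <;> simp

/-- `1` if `n` is a primitive root modulo `p`, and `0` otherwise -/
noncomputable def pri (p : ℕ) (n : ℤ) : ℝ := by
  classical
  exact if orderOf ((n : ℤ) : ZMod p) = p - 1 then 1 else 0

lemma pri_mem (p : ℕ) (n : ℤ) : 0 ≤ pri p n ∧ pri p n ≤ 1 := by
  unfold pri
  split_ifs <;> norm_num

lemma pri_per (p : ℕ) : Per p (pri p) := by
  intro m n h
  unfold pri
  have h1 : (n : ZMod p) = (m : ZMod p) := (ZMod.intCast_eq_intCast_iff_dvd_sub n m p).2 h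
  rw [h1]

open Pool.Agent.H730R2.AA.Exp in
/-- `F(n)` is a primitive root -/
lemma mean_pri (p : ℕ) (hpp : p.Prime) (F : Polynomial ℤ)
    (d : ℕ) (hg : Good F d p) :
    |mean p (fun n => pri p (F.eval n)) - rho p| ≤
      3 * d * ((p - 1).divisors.card : ℝ) / Real.sqrt p := by
  classical
  have : Fact p.Prime := ⟨hpp⟩
  have hdiv : (1 : ℝ) ≤ ((p - 1).divisors.card : ℝ) := by
    have h3 : 0 < (p - 1).divisors.card := by
      rw [card_pos, Nat.nonempty_divisors]
      have := hpp.two_le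
      omega
    exact_mod_cast h3
  refine mean_le p F d hg (pri p) (pri_mem p) (rho p) _ (ox_rho0 p) ((ox_rho1 p).trans (by norm_num))
    hdiv (fun χ => fc gen χ) ?_ ?_
  · refine le_trans ?_ fc_gen_sum
    apply sum_le_sum_of_subset_of_nonneg
    · intro χ _
      exact mem_univ _
    · intro χ _ _
      exact norm_nonneg _
  · intro n hn
    have hu : IsUnit ((n : ℤ) : ZMod p) := by
      rw [isUnit_iff_ne_zero, Ne, ZMod.intCast_zmod_eq_zero_iff_dvd]
      exact hn
    obtain ⟨a, ha⟩ := hu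
    have h1 := fc_inv gen a
    rw [← add_sum_erase univ _ (mem_univ (1 : DirichletCharacter ℂ p)), fc_gen_one,
      MulChar.one_apply_coe, mul_one] at h1
    have h2 : (univ : Finset (DirichletCharacter ℂ p)).erase 1 = NT p := by
      unfold NT
      ext χ
      simp
    rw [h2] at h1
    rw [← ha, h1]
    unfold pri gen
    rw [← ha, orderOf_units]
    split_ifs <;> simp

/-- `1` if `D n` is a square modulo `p`, and `0` otherwise -/
noncomputable def qu (D : ℤ) (p : ℕ) (n : ℤ) : ℝ := by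
  classical
  exact if IsSquare ((D * n : ℤ) : ZMod p) then 1 else 0

lemma qu_mem (D : ℤ) (p : ℕ) (n : ℤ) : 0 ≤ qu D p n ∧ qu D p n ≤ 1 := by
  unfold qu
  split_ifs <;> norm_num

lemma qu_per (D : ℤ) (p : ℕ) : Per p (qu D p) := by
  intro m n h
  unfold qu
  have h1 : (n : ZMod p) = (m : ZMod p) := (ZMod.intCast_eq_intCast_iff_dvd_sub n m p).2 h
  have : ((D * m : ℤ) : ZMod p) = ((D * n : ℤ) : ZMod p) := by
    push_cast
    rw [h1]
  rw [this]

open Pool.Agent.H730R2.AA.Exp in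
/-- `D F(n)` is a square -/
lemma mean_qu (p : ℕ) (hpp : p.Prime) (hp : p ≠ 2) (D : ℤ) (hD : ¬ (p : ℤ) ∣ D) (F : Polynomial ℤ)
    (d : ℕ) (hg : Good F d p) :
    |mean p (fun n => qu D p (F.eval n)) - 1 / 2| ≤
      3 * d * ((p - 1).divisors.card : ℝ) / Real.sqrt p := by
  classical
  have : Fact p.Prime := ⟨hpp⟩
  have hdiv : (1 : ℝ) ≤ ((p - 1).divisors.card : ℝ) := by
    have h3 : 0 < (p - 1).divisors.card := by
      rw [card_pos, Nat.nonempty_divisors]
      have := hpp.two_le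
      omega
    exact_mod_cast h3
  refine mean_le p F d hg (qu D p) (qu_mem D p) (1 / 2) _ (by norm_num) (by norm_num)
    hdiv (fun χ => if χ = qc p then qc p ((D : ℤ) : ZMod p) / 2 else 0) ?_ ?_
  · refine le_trans ?_ hdiv
    have hq : qc p ∈ NT p := by
      simp only [NT, mem_filter]
      exact ⟨mem_univ _, qc_ne hp⟩
    rw [sum_eq_single (qc p)]
    · rw [if_pos rfl, norm_div]
      have := DirichletCharacter.norm_le_one (qc p) ((D : ℤ) : ZMod p)
      rw [Complex.norm_ofNat]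
      linarith
    · intro χ _ h
      rw [if_neg h, norm_zero]
    · intro h
      exact absurd hq h
  · intro n hn
    have hq : qc p ∈ NT p := by
      simp only [NT, mem_filter]
      exact ⟨mem_univ _, qc_ne hp⟩
    rw [sum_eq_single (qc p)]
    · rw [if_pos rfl]
      have e1 : qc p ((D : ℤ) : ZMod p) / 2 * qc p ((n : ℤ) : ZMod p) =
          qc p (((D * n : ℤ)) : ZMod p) / 2 := by
        push_cast
        rw [map_mul]
        ring
      rw [e1]
      have hDn : (((D * n : ℤ)) : ZMod p) ≠ 0 := by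
        rw [Ne, ZMod.intCast_zmod_eq_zero_iff_dvd]
        intro h
        rcases (Nat.prime_iff_prime_int.1 hpp).dvd_or_dvd h with h | h
        · exact hD h
        · exact hn h
      have e2 : qc p (((D * n : ℤ)) : ZMod p) =
          ((quadraticChar (ZMod p) (((D * n : ℤ)) : ZMod p) : ℤ) : ℂ) := by
        unfold qc
        rw [MulChar.ringHomComp_apply]
        rfl
      rw [e2]
      unfold qu
      split_ifs with hsq
      · rw [(quadraticChar_one_iff_isSquare hDn).2 hsq]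
        push_cast
        norm_num
      · have : quadraticChar (ZMod p) (((D * n : ℤ)) : ZMod p) = -1 :=
          quadraticChar_neg_one_iff_not_isSquare.2 hsq
        rw [this]
        push_cast
        norm_num
    · intro χ _ h
      rw [if_neg h, zero_mul]
    · intro h
      exact absurd hq h

/-! ## sums over the primes -/

lemma sum_inv_sqrt (n : ℕ) : ∑ e ∈ Icc 1 n, 1 / Real.sqrt e ≤ 2 * Real.sqrt n := by
  induction n with
  | zero => simp
  | succ n ih =>
    rw [← insert_Icc_right_eq_Icc_add_one (by omega : 1 ≤ n + 1), sum_insert (by simp)]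
    have h0 : (0 : ℝ) < ((n + 1 : ℕ) : ℝ) := by positivity
    have h1 : 0 < Real.sqrt ((n + 1 : ℕ) : ℝ) := Real.sqrt_pos.2 h0
    have h2 : Real.sqrt (n : ℝ) ≤ Real.sqrt ((n + 1 : ℕ) : ℝ) := Real.sqrt_le_sqrt (by push_cast; linarith)
    have h3 : Real.sqrt ((n + 1 : ℕ) : ℝ) * Real.sqrt ((n + 1 : ℕ) : ℝ) = ((n + 1 : ℕ) : ℝ) :=
      Real.mul_self_sqrt h0.le
    have h4 : Real.sqrt (n : ℝ) * Real.sqrt (n : ℝ) = (n : ℝ) := Real.mul_self_sqrt (Nat.cast_nonneg _)
    have h5 : 0 ≤ Real.sqrt (n : ℝ) := Real.sqrt_nonneg _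
    have h6 : 1 / Real.sqrt ((n + 1 : ℕ) : ℝ) ≤
        2 * Real.sqrt ((n + 1 : ℕ) : ℝ) - 2 * Real.sqrt (n : ℝ) := by
      rw [div_le_iff₀ h1]
      push_cast at h3 ⊢
      nlinarith
    linarith

lemma sum_tau (x : ℕ) : ∑ n ∈ Icc 1 x, (n.divisors.card : ℝ) / Real.sqrt n ≤
    2 * Real.sqrt x * (1 + Real.log x) := by
  classical
  have h1 : ∑ n ∈ Icc 1 x, (n.divisors.card : ℝ) / Real.sqrt n =
      ∑ n ∈ Icc 1 x, ∑ a ∈ n.divisors, 1 / Real.sqrt n := by
    apply sum_congr rfl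
    intro n _
    rw [sum_const, nsmul_eq_mul, mul_one_div]
  have h2 : ∑ n ∈ Icc 1 x, ∑ a ∈ n.divisors, 1 / Real.sqrt n =
      ∑ a ∈ Icc 1 x, ∑ n ∈ (Icc 1 x).filter (fun n => a ∣ n), 1 / Real.sqrt n := by
    apply sum_comm'
    intro n a
    rw [mem_Icc, Nat.mem_divisors, mem_filter, mem_Icc, mem_Icc]
    constructor
    · rintro ⟨⟨h3, h4⟩, h5, h6⟩
      refine ⟨⟨⟨h3, h4⟩, h5⟩, ?_, ?_⟩
      · exact Nat.pos_of_dvd_of_pos h5 (by omega)
      · exact (Nat.le_of_dvd (by omega) h5).trans h4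
    · rintro ⟨⟨⟨h3, h4⟩, h5⟩, _, _⟩
      exact ⟨⟨h3, h4⟩, h5, by omega⟩
  have h3 : ∀ a ∈ Icc 1 x, ∑ n ∈ (Icc 1 x).filter (fun n => a ∣ n), 1 / Real.sqrt n ≤
      2 * Real.sqrt x * (1 / a) := by
    intro a ha
    rw [mem_Icc] at ha
    have ha0 : (0 : ℝ) < a := by exact_mod_cast ha.1
    have h4 : (Icc 1 x).filter (fun n => a ∣ n) = (Icc 1 (x / a)).image (fun e => a * e) := by
      ext n
      rw [mem_filter, mem_Icc, mem_image]
      constructor
      · rintro ⟨⟨h5, h6⟩, e, rfl⟩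
        refine ⟨e, ?_, rfl⟩
        rw [mem_Icc]
        constructor
        · rcases Nat.eq_zero_or_pos e with h | h
          · rw [h] at h5; omega
          · exact h
        · rw [Nat.le_div_iff_mul_le (by omega), mul_comm]
          exact h6
      · rintro ⟨e, he, rfl⟩
        rw [mem_Icc, Nat.le_div_iff_mul_le (by omega), mul_comm e] at he
        exact ⟨⟨Nat.mul_pos (by omega) he.1, he.2⟩, dvd_mul_right _ _⟩
    rw [h4, sum_image (by
      intro e _ e' _ h
      exact Nat.eq_of_mul_eq_mul_left (by omega) h)]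
    have h5 : ∀ e ∈ Icc 1 (x / a), 1 / Real.sqrt ((a * e : ℕ) : ℝ) =
        1 / Real.sqrt a * (1 / Real.sqrt e) := by
      intro e _
      push_cast
      rw [Real.sqrt_mul ha0.le]
      field_simp
    rw [sum_congr rfl h5, ← mul_sum]
    have h6 := sum_inv_sqrt (x / a)
    have hsa : 0 < Real.sqrt a := Real.sqrt_pos.2 ha0
    have h7 : Real.sqrt ((x / a : ℕ) : ℝ) ≤ Real.sqrt x / Real.sqrt a := by
      rw [← Real.sqrt_div (Nat.cast_nonneg x)]
      exact Real.sqrt_le_sqrt Nat.cast_div_le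
    calc 1 / Real.sqrt a * ∑ e ∈ Icc 1 (x / a), 1 / Real.sqrt e ≤
        1 / Real.sqrt a * (2 * (Real.sqrt x / Real.sqrt a)) := by
          apply mul_le_mul_of_nonneg_left _ (by positivity)
          linarith
      _ = 2 * Real.sqrt x * (1 / (Real.sqrt a * Real.sqrt a)) := by field_simp
      _ = _ := by rw [Real.mul_self_sqrt ha0.le]
  rw [h1, h2]
  refine (sum_le_sum h3).trans ?_
  rw [← mul_sum]
  apply mul_le_mul_of_nonneg_left _ (by positivity)
  have h7 := harmonic_le_one_add_log x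
  rw [harmonic_eq_sum_Icc] at h7
  push_cast at h7
  simpa [one_div] using h7

lemma sum_tau_primes (M x : ℕ) : ∑ p ∈ GP M x, ((p - 1).divisors.card : ℝ) / Real.sqrt p ≤
    2 * Real.sqrt x * (1 + Real.log x) := by
  classical
  refine le_trans ?_ (sum_tau x)
  calc ∑ p ∈ GP M x, ((p - 1).divisors.card : ℝ) / Real.sqrt p ≤
      ∑ p ∈ GP M x, ((p - 1).divisors.card : ℝ) / Real.sqrt ((p - 1 : ℕ) : ℝ) := by
        apply sum_le_sum
        intro p hp
        rw [mem_GP] at hp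
        have h2 := hp.2.1.two_le
        apply div_le_div_of_nonneg_left (Nat.cast_nonneg _)
        · apply Real.sqrt_pos.2
          exact_mod_cast (by omega : 0 < p - 1)
        · apply Real.sqrt_le_sqrt
          exact_mod_cast Nat.sub_le p 1
    _ = ∑ n ∈ (GP M x).image (fun p : ℕ => p - 1), (n.divisors.card : ℝ) / Real.sqrt n := by
        rw [sum_image]
        intro p hp q hq h
        rw [mem_coe, mem_GP] at hp hq
        have h2 := hp.2.1.two_le
        have h3 := hq.2.1.two_le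
        simp only at h
        omega
    _ ≤ _ := by
        apply sum_le_sum_of_subset_of_nonneg
        · intro n hn
          rw [mem_image] at hn
          obtain ⟨p, hp, rfl⟩ := hn
          rw [mem_GP] at hp
          have h2 := hp.2.1.two_le
          rw [mem_Icc]
          omega
        · intro n _ _
          positivity

lemma small2 (K ε : ℝ) (hε : 0 < ε) : ∃ X : ℕ, 4 ≤ X ∧ ∀ x : ℕ, X ≤ x →
    K * (2 * Real.sqrt x * (1 + Real.log x)) ≤ ε * (Nat.primeCounting x : ℝ) := by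
  have h1 : Tendsto (fun x : ℝ => Real.log x ^ (2 : ℝ) / x ^ (1 / 2 : ℝ)) atTop (nhds 0) :=
    (isLittleO_log_rpow_rpow_atTop 2 (by norm_num : (0 : ℝ) < 1 / 2)).tendsto_div_nhds_zero
  have h2 := (h1.comp tendsto_natCast_atTop_atTop).eventually
    (gt_mem_nhds (show (0 : ℝ) < ε / (16 * (|K| + 1)) by positivity))
  obtain ⟨X, hX⟩ := h2.exists_forall_of_atTop
  refine ⟨max X 4, le_max_right _ _, fun x hx => ?_⟩
  have h3 := hX x ((le_max_left _ _).trans hx)
  have hx4 : 4 ≤ x := (le_max_right _ _).trans hx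
  have hx4' : (4 : ℝ) ≤ x := by exact_mod_cast hx4
  have hx0 : (0 : ℝ) < x := by linarith
  simp only [Function.comp_apply] at h3
  rw [← Real.sqrt_eq_rpow, Real.rpow_two] at h3
  have h4 := ox_cheb x hx4
  have hlog1 : 1 ≤ Real.log x := by
    rw [Real.le_log_iff_exp_le hx0]
    linarith [Real.exp_one_lt_d9]
  have hs0 : 0 < Real.sqrt x := Real.sqrt_pos.2 hx0
  have hss : Real.sqrt x * Real.sqrt x = x := Real.mul_self_sqrt hx0.le
  rw [div_lt_div_iff₀ hs0 (by positivity)] at h3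
  have h5 : K * (2 * Real.sqrt x * (1 + Real.log x)) ≤ 4 * (|K| + 1) * (Real.sqrt x * Real.log x) := by
    have h6 : K ≤ |K| + 1 := (le_abs_self K).trans (by linarith)
    have h7 : 2 * Real.sqrt x * (1 + Real.log x) ≤ 4 * (Real.sqrt x * Real.log x) := by
      nlinarith
    have h8 : 0 ≤ 2 * Real.sqrt x * (1 + Real.log x) := by positivity
    calc K * (2 * Real.sqrt x * (1 + Real.log x)) ≤ (|K| + 1) * (2 * Real.sqrt x * (1 + Real.log x)) :=
          mul_le_mul_of_nonneg_right h6 h8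
      _ ≤ (|K| + 1) * (4 * (Real.sqrt x * Real.log x)) :=
          mul_le_mul_of_nonneg_left h7 (by positivity)
      _ = _ := by ring
  refine h5.trans ?_
  have h9 : (4 * (|K| + 1) * (Real.sqrt x * Real.log x)) * Real.log x ≤
      (ε * (Nat.primeCounting x : ℝ)) * Real.log x := by
    calc (4 * (|K| + 1) * (Real.sqrt x * Real.log x)) * Real.log x =
        ((Real.log x ^ 2 * (16 * (|K| + 1))) * Real.sqrt x) / 4 := by ring
      _ ≤ ((ε * Real.sqrt x) * Real.sqrt x) / 4 := by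
          have := mul_le_mul_of_nonneg_right h3.le hs0.le
          linarith
      _ = ε * (x / 4) := by rw [mul_assoc, hss]; ring
      _ ≤ ε * ((Nat.primeCounting x : ℝ) * Real.log x) := mul_le_mul_of_nonneg_left h4 hε.le
      _ = _ := by ring
  exact le_of_mul_le_mul_right h9 (by linarith)

/-- the average of the means of `f p` is the average of the constants `c p` -/
lemma mean_avg (M : ℕ) (d : ℕ) (f : ℕ → ℤ → ℝ) (c : ℕ → ℝ) (δ : ℝ)
    (hm : ∀ p : ℕ, p.Prime → ¬ p ∣ M → |mean p (f p) - c p| ≤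
      3 * d * ((p - 1).divisors.card : ℝ) / Real.sqrt p)
    (hc : ∀ ε : ℝ, 0 < ε → ∃ X : ℕ, ∀ x : ℕ, X ≤ x →
      |∑ p ∈ GP M x, c p - δ * Nat.primeCounting x| ≤ ε * Nat.primeCounting x) :
    ∀ ε : ℝ, 0 < ε → ∃ X : ℕ, ∀ x : ℕ, X ≤ x →
      |∑ p ∈ GP M x, mean p (f p) - δ * Nat.primeCounting x| ≤ ε * Nat.primeCounting x := by
  intro ε hε
  obtain ⟨X1, hX1⟩ := hc (ε / 2) (by positivity)
  obtain ⟨X2, _, hX2⟩ := small2 (3 * d) (ε / 2) (by positivity)
  refine ⟨max X1 X2, fun x hx => ?_⟩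
  have h1 := hX1 x ((le_max_left _ _).trans hx)
  have h2 := hX2 x ((le_max_right _ _).trans hx)
  have h3 : |∑ p ∈ GP M x, mean p (f p) - ∑ p ∈ GP M x, c p| ≤
      3 * d * (2 * Real.sqrt x * (1 + Real.log x)) := by
    rw [← sum_sub_distrib]
    refine (abs_sum_le_sum_abs _ _).trans ?_
    calc ∑ p ∈ GP M x, |mean p (f p) - c p| ≤
        ∑ p ∈ GP M x, 3 * d * (((p - 1).divisors.card : ℝ) / Real.sqrt p) := by
          apply sum_le_sum
          intro p hp
          rw [mem_GP] at hp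
          refine (hm p hp.2.1 hp.2.2).trans (le_of_eq ?_)
          ring
      _ = 3 * d * ∑ p ∈ GP M x, ((p - 1).divisors.card : ℝ) / Real.sqrt p := by rw [mul_sum]
      _ ≤ _ := mul_le_mul_of_nonneg_left (sum_tau_primes M x) (by positivity)
  have h4 := abs_sub_le (∑ p ∈ GP M x, mean p (f p)) (∑ p ∈ GP M x, c p) (δ * Nat.primeCounting x)
  linarith

end Pool.Agent.R318.PR
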