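import Pool.Agent.H435R3.Weil.Main

/-! # Weil's bound for `∑ χ(P(x))` when `P` has an irreducible factor of multiplicity one -/

set_option autoImplicit false

namespace Pool.Agent.R318.PR

open Polynomial Finset Pool.Agent.H341R2.Sharp IntermediateField Pool.Agent.H435R3.Weil

/-! ## power sums along multiples of `k` -/

/-- the logarithmic derivative identity, as an identity of power series -/
def LD (a : ℂ[X]) (S : ℕ → ℂ) : Prop :=
  ∀ n : ℕ, (n : ℂ) * a.coeff n = ∑ m ∈ Icc 1 n, a.coeff (n - m) * S m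

/-- the power series of the power sums -/
noncomputable def SS (S : ℕ → ℂ) : PowerSeries ℂ := PowerSeries.mk fun m => if m = 0 then 0 else S m

theorem ld_iff (a : ℂ[X]) (S : ℕ → ℂ) :
    LD a S ↔ PowerSeries.X * PowerSeries.derivative ℂ (a : PowerSeries ℂ) =
      (a : PowerSeries ℂ) * SS S := by
  have h1 : ∀ n : ℕ, PowerSeries.coeff n
      (PowerSeries.X * PowerSeries.derivative ℂ (a : PowerSeries ℂ)) = (n : ℂ) * a.coeff n := by
    intro n
    rcases n with _ | n
    · simp
    · rw [PowerSeries.coeff_succ_X_mul, PowerSeries.coeff_derivative]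
      rw [Polynomial.coeff_coe]
      push_cast
      ring
  have h2 : ∀ n : ℕ, PowerSeries.coeff n ((a : PowerSeries ℂ) * SS S) =
      ∑ m ∈ Icc 1 n, a.coeff (n - m) * S m := by
    intro n
    rw [PowerSeries.coeff_mul, Nat.sum_antidiagonal_eq_sum_range_succ_mk]
    have h3 : ∑ k ∈ range n.succ, PowerSeries.coeff k (a : PowerSeries ℂ) *
        PowerSeries.coeff (n - k) (SS S) =
        ∑ m ∈ range (n + 1), a.coeff (n - m) * (if m = 0 then 0 else S m) := by
      rw [← sum_range_reflect]
      apply sum_congr rfl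
      intro m hm
      rw [mem_range] at hm
      have e1 : n.succ - 1 - m = n - m := by omega
      have e2 : n - (n - m) = m := by omega
      rw [e1, e2, Polynomial.coeff_coe, SS, PowerSeries.coeff_mk]
    rw [h3]
    have h4 : (range (n + 1)).filter (fun m => m ≠ 0) = Icc 1 n := by
      ext m
      simp only [mem_filter, mem_range, mem_Icc]
      omega
    rw [← h4, sum_filter]
    apply sum_congr rfl
    intro m _
    by_cases h0 : m = 0
    · simp [h0]
    · simp [h0]
  constructor
  · intro h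
    ext n
    rw [h1, h2]
    exact h n
  · intro h n
    rw [← h1, ← h2, h]

theorem ld_one : LD 1 (fun _ => 0) := by
  intro n
  rw [coeff_one]
  rcases Nat.eq_zero_or_pos n with h | h
  · simp [h]
  · rw [if_neg (by omega)]
    simp

theorem ld_mul {a b : ℂ[X]} {S T : ℕ → ℂ} (ha : LD a S) (hb : LD b T) :
    LD (a * b) (fun m => S m + T m) := by
  rw [ld_iff] at ha hb ⊢
  have h1 : SS (fun m => S m + T m) = SS S + SS T := by
    ext n
    rw [map_add]
    unfold SS
    simp only [PowerSeries.coeff_mk]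
    split_ifs <;> simp
  rw [h1, Polynomial.coe_mul, Derivation.leibniz]
  rw [smul_eq_mul, smul_eq_mul]
  linear_combination (b : PowerSeries ℂ) * ha + (a : PowerSeries ℂ) * hb

theorem ld_scale {a : ℂ[X]} {S : ℕ → ℂ} (ha : LD a S) (z : ℂ) :
    LD (a.comp (C z * X)) (fun m => z ^ m * S m) := by
  intro n
  rw [comp_C_mul_X_coeff, ← mul_assoc, ha n, sum_mul]
  apply sum_congr rfl
  intro m hm
  rw [mem_Icc] at hm
  rw [comp_C_mul_X_coeff]
  have : z ^ n = z ^ (n - m) * z ^ m := by
    rw [← pow_add]; congr 1; omega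
  rw [this]
  ring

theorem ld_prod {a : ℂ[X]} {S : ℕ → ℂ} (ha : LD a S) (s : Finset ℂ) :
    LD (∏ z ∈ s, a.comp (C z * X)) (fun m => (∑ z ∈ s, z ^ m) * S m) := by
  classical
  induction s using Finset.induction_on with
  | empty =>
    rw [prod_empty]
    have := ld_one
    simpa using this
  | insert z s hz ih =>
    rw [prod_insert hz]
    have h := ld_mul (ld_scale ha z) ih
    have e : (fun m => (∑ w ∈ insert z s, w ^ m) * S m) =
        fun m => z ^ m * S m + (∑ w ∈ s, w ^ m) * S m := by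
      funext m
      rw [sum_insert hz, add_mul]
    rw [e]
    exact h

/-- the roots are large if the power sums along the multiples of `k` are small -/
theorem root_norm_k (k : ℕ) (hk : 1 ≤ k) (a : ℂ[X]) (ha0 : a.coeff 0 = 1) (S : ℕ → ℂ) (r K : ℝ)
    (hr : 0 < r) (hK : 0 ≤ K) (hS : ∀ m, 1 ≤ m → k ∣ m → ‖S m‖ ≤ K * r ^ m) (hid : LD a S)
    (z : ℂ) (hz : a.eval z = 0) : 1 ≤ r * ‖z‖ := by
  classical
  have : NeZero k := ⟨by omega⟩
  set s : Finset ℂ := nthRootsFinset k (1 : ℂ) with hs
  have hmem : ∀ w, w ∈ s ↔ w ^ k = 1 := by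
    intro w
    rw [hs, mem_nthRootsFinset (by omega)]
  obtain ⟨ζ, hζ⟩ : ∃ ζ : ℂ, IsPrimitiveRoot ζ k :=
    ⟨_, Complex.isPrimitiveRoot_exp k (by omega)⟩
  have hcard : s.card = k := by
    rw [hs]; exact hζ.card_nthRootsFinset
  have hsum0 : ∀ m, ¬ k ∣ m → ∑ w ∈ s, w ^ m = 0 := by
    intro m hm
    have h1 : ∑ w ∈ s, w ^ m = ζ ^ m * ∑ w ∈ s, w ^ m := by
      rw [mul_sum]
      symm
      refine sum_bij' (fun w _ => ζ * w) (fun w _ => ζ⁻¹ * w) ?_ ?_ ?_ ?_ ?_
      · intro w hw
        rw [hmem] at hw ⊢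
        rw [mul_pow, hζ.pow_eq_one, hw, one_mul]
      · intro w hw
        rw [hmem] at hw ⊢
        rw [mul_pow, inv_pow, hζ.pow_eq_one, hw, inv_one, one_mul]
      · intro w _
        rw [← mul_assoc, inv_mul_cancel₀ (hζ.ne_zero (by omega)), one_mul]
      · intro w _
        rw [← mul_assoc, mul_inv_cancel₀ (hζ.ne_zero (by omega)), one_mul]
      · intro w _
        rw [mul_pow]
    have h2 : ζ ^ m ≠ 1 := fun h => hm ((hζ.pow_eq_one_iff_dvd m).1 h)
    have h3 : (1 - ζ ^ m) * ∑ w ∈ s, w ^ m = 0 := by linear_combination h1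
    rcases mul_eq_zero.1 h3 with h | h
    · exact absurd (sub_eq_zero.1 h).symm h2
    · exact h
  have hb := ld_prod hid s
  refine root_norm (∏ w ∈ s, a.comp (C w * X)) ?_ (fun m => (∑ w ∈ s, w ^ m) * S m) r (k * K) hr
    (by positivity) ?_ hb z ?_
  · rw [coeff_zero_eq_eval_zero, eval_prod]
    apply prod_eq_one
    intro w _
    rw [eval_comp]
    simp only [eval_mul, eval_C, eval_X, mul_zero]
    rw [← coeff_zero_eq_eval_zero, ha0]
  · intro m hm
    by_cases hkm : k ∣ m
    · rw [norm_mul, mul_assoc]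
      refine mul_le_mul ?_ (hS m hm hkm) (norm_nonneg _) (Nat.cast_nonneg _)
      refine (norm_sum_le _ _).trans ?_
      have h1 : ∀ w ∈ s, ‖w ^ m‖ ≤ 1 := by
        intro w hw
        rw [hmem] at hw
        rw [norm_pow, Complex.norm_eq_one_of_pow_eq_one hw (by omega), one_pow]
      refine (sum_le_sum h1).trans ?_
      rw [sum_const, nsmul_eq_mul, mul_one, hcard]
    · rw [hsum0 m hkm, zero_mul, norm_zero]
      positivity
  · rw [eval_prod]
    have h1 : (1 : ℂ) ∈ s := by rw [hmem]; simp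
    apply prod_eq_zero h1
    rw [eval_comp]
    simpa using hz

theorem coeff_one_bound_k (k : ℕ) (hk : 1 ≤ k) (a : ℂ[X]) (ha0 : a.coeff 0 = 1) (S : ℕ → ℂ)
    (r K : ℝ) (hr : 0 < r) (hK : 0 ≤ K) (hS : ∀ m, 1 ≤ m → k ∣ m → ‖S m‖ ≤ K * r ^ m)
    (hid : LD a S) (d : ℕ) (hd : a.natDegree ≤ d) : ‖a.coeff 1‖ ≤ d * r := by
  have ha : a ≠ 0 := by
    rintro rfl
    simp at ha0
  have h0 : a.eval 0 = 1 := by rw [← coeff_zero_eq_eval_zero, ha0]
  have h1 := (IsAlgClosed.splits a).eval_derivative_div_eval_of_ne_zero (x := 0)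
    (by rw [h0]; exact one_ne_zero)
  have h2 : a.derivative.eval 0 = a.coeff 1 := by
    rw [← coeff_zero_eq_eval_zero, coeff_derivative]
    simp
  rw [h0, div_one, h2] at h1
  rw [h1]
  refine (Multiset.le_sum_of_subadditive norm norm_zero.le (fun x y => norm_add_le x y) _).trans ?_
  have h3 : ((a.roots.map fun z => 1 / (0 - z)).map norm).sum ≤ (a.roots.map fun _ => r).sum := by
    rw [Multiset.map_map]
    apply Multiset.sum_map_le_sum_map
    intro z hz
    rw [mem_roots ha] at hz
    have h4 := root_norm_k k hk a ha0 S r K hr hK hS hid z hz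
    have hz0 : 0 < ‖z‖ := by
      rcases (norm_nonneg z).eq_or_lt with h | h
      · rw [← h, mul_zero] at h4
        linarith
      · exact h
    simp only [Function.comp, zero_sub, norm_div, norm_one, norm_neg]
    rw [div_le_iff₀ hz0]
    exact h4
  refine h3.trans ?_
  rw [Multiset.map_const', Multiset.sum_replicate, nsmul_eq_mul]
  refine mul_le_mul_of_nonneg_right ?_ hr.le
  exact_mod_cast (card_roots' a).trans hd

/-! ## the extensions of degree divisible by `k` -/

section

variable {F : Type} [Field F] [Fintype F] [DecidableEq F]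

/-- an irreducible factor of multiplicity one has a simple root in the extensions of degree
divisible by its degree -/
theorem cop_ext (t : ℕ) (P Q : F[X]) (hP0 : P ≠ 0) (hQ : Irreducible Q) (hQP : Q ∣ P)
    (hQ2 : ¬ Q ^ 2 ∣ P) (E : Type) [Field E] [Fintype E] [Algebra F E]
    (hk : Q.natDegree ∣ Module.finrank F E) : Cop t (P.map (algebraMap F E)) := by
  classical
  have hcardE : (Nat.card F) ^ Module.finrank F E = Fintype.card E := by
    rw [Nat.card_eq_fintype_card, Module.card_eq_pow_finrank (K := F) (V := E)]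
  have hsplit : (Q.map (algebraMap F E)).Splits := by
    have h4 : Q ∣ X ^ (Nat.card F) ^ Module.finrank F E - X :=
      (hQ.natDegree_dvd_iff_dvd_X_pow_card_pow_sub_X).1 hk
    have h5 : (Q.map (algebraMap F E)) ∣ (X ^ (Nat.card F) ^ Module.finrank F E - X : E[X]) := by
      have := Polynomial.map_dvd (algebraMap F E) h4
      simpa using this
    rw [hcardE] at h5
    have h6 : (X ^ Fintype.card E - X : E[X]).Splits := by
      rw [splits_iff_card_roots, FiniteField.roots_X_pow_card_sub_X,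
        FiniteField.X_pow_card_sub_X_natDegree_eq _ Fintype.one_lt_card]
      rfl
    exact h6.of_dvd (FiniteField.X_pow_card_sub_X_ne_zero _ Fintype.one_lt_card) h5
  have hdegQ : (Q.map (algebraMap F E)).degree ≠ 0 := by
    rw [degree_map]
    exact (degree_pos_of_irreducible hQ).ne'
  obtain ⟨v, hv⟩ := hsplit.exists_eval_eq_zero hdegQ
  obtain ⟨g, hg⟩ := hQP
  have hQg : IsCoprime Q g := by
    rw [hQ.coprime_iff_not_dvd]
    intro h
    apply hQ2
    rw [hg, pow_two]
    exact mul_dvd_mul_left Q h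
  have hgv : (g.map (algebraMap F E)).eval v ≠ 0 := by
    intro h0
    have h1 := hQg.map (Polynomial.mapRingHom (algebraMap F E))
    obtain ⟨u, w, huw⟩ := h1
    have h2 := congrArg (eval v) huw
    simp only [coe_mapRingHom, eval_add, eval_mul, eval_one] at h2
    rw [hv, h0] at h2
    simp at h2
  have hQm0 : Q.map (algebraMap F E) ≠ 0 := Polynomial.map_ne_zero hQ.ne_zero
  have hP' : P.map (algebraMap F E) ≠ 0 := Polynomial.map_ne_zero hP0
  refine ⟨v, ?_⟩
  have h1 : rootMultiplicity v (P.map (algebraMap F E)) = 1 := by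
    have h2 : P.map (algebraMap F E) = Q.map (algebraMap F E) * g.map (algebraMap F E) := by
      rw [hg, Polynomial.map_mul]
    rw [h2, rootMultiplicity_mul (by rw [← h2]; exact hP')]
    have h3 : rootMultiplicity v (g.map (algebraMap F E)) = 0 := rootMultiplicity_eq_zero hgv
    have h4 : rootMultiplicity v (Q.map (algebraMap F E)) ≤ 1 :=
      rootMultiplicity_le_one_of_separable
        ((PerfectField.separable_of_irreducible hQ).map) v
    have h5 : 0 < rootMultiplicity v (Q.map (algebraMap F E)) :=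
      (rootMultiplicity_pos hQm0).2 hv
    omega
  rw [h1]
  exact Nat.coprime_one_left t

/-- an extension of every degree divisible by `deg Q` with the bound of Stepanov's method -/
theorem T_bound2 (t : ℕ) (ht : 2 ≤ t) (htF : t ∣ Fintype.card F - 1) (χ : MulChar F ℂ)
    (hχ1 : χ ≠ 1) (hχ : χ ^ t = 1) (P Q : F[X]) (hP : P.Monic) (hQ : Irreducible Q)
    (hQP : Q ∣ P) (hQ2 : ¬ Q ^ 2 ∣ P) :
    ∃ K : ℝ, 0 ≤ K ∧ ∀ m : ℕ, 1 ≤ m → Q.natDegree ∣ m →
      ‖TL (lamPR χ P 1) m‖ ≤ K * (Real.sqrt (Fintype.card F)) ^ m ∧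
      ∃ (E : Type) (_ : Field E) (_ : Fintype E) (_ : DecidableEq E) (_ : Algebra F E),
        Module.finrank F E = m ∧ Fintype.card E = Fintype.card F ^ m ∧
        ‖∑ x : E, χ (Algebra.norm F (aeval x P)) *
          (starRingEnd ℂ) (χ (Algebra.norm F (aeval x (1 : F[X]))))‖ ≤
          K * (Real.sqrt (Fintype.card F)) ^ m := by
  classical
  obtain ⟨K, hK, hw⟩ := wele t P.natDegree ht
  refine ⟨K, hK, fun m hm hQm => ?_⟩
  obtain ⟨p, hp⟩ := CharP.exists F
  have : Fact (Nat.Prime p) := ⟨CharP.char_is_prime F p⟩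
  have : NeZero m := ⟨by omega⟩
  let E := FiniteField.Extension F p m
  let _ : Fintype E := Fintype.ofFinite E
  have hfr : Module.finrank F E = m := FiniteField.finrank_extension F p m
  have hcard : Fintype.card E = Fintype.card F ^ m := by
    rw [Module.card_eq_pow_finrank (K := F) (V := E), hfr]
  have htE : t ∣ Fintype.card E - 1 := by
    refine htF.trans ?_
    rw [hcard]
    simpa using Nat.sub_dvd_pow_sub_pow (Fintype.card F) 1 m
  have hcopE : Cop t (P.map (algebraMap F E)) :=
    cop_ext t P Q hP.ne_zero hQ hQP hQ2 E (by rw [hfr]; exact hQm)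
  have h1 := hw E htE (normChar F E χ) (normChar_ne_one F E χ hχ1)
    (normChar_pow F E χ t (by omega) hχ) (P.map (algebraMap F E)) natDegree_map_le
    ((hP.map _).ne_zero) hcopE
  have h2 : Real.sqrt (Fintype.card E) = (Real.sqrt (Fintype.card F)) ^ m := by
    rw [hcard]
    push_cast
    rw [Real.sqrt_eq_iff_mul_self_eq (by positivity) (by positivity), ← mul_pow,
      Real.mul_self_sqrt (by positivity)]
  rw [h2] at h1
  have h3 : ∀ x : E, normChar F E χ ((P.map (algebraMap F E)).eval x) =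
      χ (Algebra.norm F (aeval x P)) *
        (starRingEnd ℂ) (χ (Algebra.norm F (aeval x (1 : F[X])))) := by
    intro x
    rw [eval_map_algebraMap, normChar_apply, map_one, map_one, map_one, map_one, mul_one]
  simp_rw [h3] at h1
  refine ⟨?_, E, inferInstance, inferInstance, inferInstance, inferInstance, hfr, hcard, h1⟩
  have h4 := TL_char (E := E) χ P 1
  rw [hfr] at h4
  rw [h4]
  exact h1

theorem exists_r2 (t : ℕ) (ht : 2 ≤ t) (htF : t ∣ Fintype.card F - 1) (χ : MulChar F ℂ)
    (hχ1 : χ ≠ 1) (hχ : χ ^ t = 1) (P Q : F[X]) (hP : P.Monic) (hQ : Irreducible Q)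
    (hQP : Q ∣ P) (hQ2 : ¬ Q ^ 2 ∣ P) :
    ∃ r : F[X], r.Monic ∧ Even r.natDegree ∧ lamPR χ P 1 r ≠ 0 ∧ lamPR χ P 1 r ≠ 1 := by
  obtain ⟨K, hK, hb⟩ := T_bound2 t ht htF χ hχ1 hχ P Q hP hQ hQP hQ2
  set R : F[X] := 1 with hRdef
  have hR : R.Monic := monic_one
  set q := Fintype.card F with hq
  have hq2 : 2 ≤ q := Fintype.one_lt_card
  set d := P.natDegree + R.natDegree with hd
  set e := Q.natDegree with he
  have he1 : 1 ≤ e := hQ.natDegree_pos
  -- the degree of the extension
  obtain ⟨k0, hk0⟩ : ∃ k : ℕ, K + d + 1 < k := exists_nat_gt _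
  obtain ⟨k, hkdef⟩ : ∃ k : ℕ, k = e * k0 := ⟨_, rfl⟩
  have hk : K + d + 1 < k := by
    refine hk0.trans_le ?_
    have : k0 ≤ k := by rw [hkdef]; exact Nat.le_mul_of_pos_left _ (by omega)
    exact_mod_cast this
  have hk1 : 1 ≤ k := by
    have : (0 : ℝ) < k := by have : (0 : ℝ) ≤ d := Nat.cast_nonneg d; linarith
    exact_mod_cast this
  obtain ⟨-, E, i1, i2, i3, i4, hfr, hcard, hbE⟩ := hb (2 * k) (by omega)
    ⟨2 * k0, by rw [hkdef]; ring⟩
  have hsq : (Real.sqrt q) ^ (2 * k) = (q : ℝ) ^ k := by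
    rw [pow_mul, Real.sq_sqrt (by positivity)]
  rw [hsq] at hbE
  have hlt : k < q ^ k := Nat.lt_pow_self (by omega)
  have hfd : FiniteDimensional F E := Module.finite_of_finrank_pos (by rw [hfr]; omega)
  have hex : ∃ x : E, χ (Algebra.norm F (aeval x P)) *
      (starRingEnd ℂ) (χ (Algebra.norm F (aeval x R))) ≠ 0 ∧ χ (Algebra.norm F (aeval x P)) *
      (starRingEnd ℂ) (χ (Algebra.norm F (aeval x R))) ≠ 1 := by
    by_contra hno
    push Not at hno
    have h1 : ∀ x : E, (1 : ℝ) - (if aeval x (P * R) = 0 then 1 else 0) ≤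
        (χ (Algebra.norm F (aeval x P)) *
          (starRingEnd ℂ) (χ (Algebra.norm F (aeval x R)))).re := by
      intro x
      by_cases h0 : aeval x (P * R) = 0
      · rw [if_pos h0]
        by_cases h2 : χ (Algebra.norm F (aeval x P)) *
          (starRingEnd ℂ) (χ (Algebra.norm F (aeval x R))) = 0
        · rw [h2]; simp
        · rw [hno x h2]; simp
      · rw [if_neg h0]
        rw [map_mul, mul_eq_zero, not_or] at h0
        have h2 : ∀ z : E, z ≠ 0 → χ (Algebra.norm F z) ≠ 0 := by
          intro z hz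
          have hu : IsUnit (Algebra.norm F z) :=
            isUnit_iff_ne_zero.2 ((Algebra.norm_ne_zero_iff).2 hz)
          exact (hu.map χ).ne_zero
        have h3 : χ (Algebra.norm F (aeval x P)) *
          (starRingEnd ℂ) (χ (Algebra.norm F (aeval x R))) ≠ 0 :=
          mul_ne_zero (h2 _ h0.1) ((_root_.map_ne_zero _).2 (h2 _ h0.2))
        rw [hno x h3]
        simp
    have h2 := Finset.sum_le_sum (s := univ) (fun x _ => h1 x)
    rw [sum_sub_distrib] at h2
    have hPR : (P * R).Monic := hP.mul hR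
    have h3 : ∑ x : E, (if aeval x (P * R) = 0 then (1 : ℝ) else 0) ≤ d := by
      rw [sum_boole]
      have h4 : (univ.filter fun x : E => aeval x (P * R) = 0) ⊆ ((P * R).aroots E).toFinset := by
        intro x hx
        rw [mem_filter] at hx
        rw [Multiset.mem_toFinset, mem_aroots]
        exact ⟨hPR.ne_zero, hx.2⟩
      have h5 := card_le_card h4
      have h6 := (Multiset.toFinset_card_le ((P * R).aroots E)).trans
        ((card_roots' _).trans (natDegree_map_le (p := P * R) (f := algebraMap F E)))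
      rw [hP.natDegree_mul hR] at h6
      exact_mod_cast h5.trans h6
    have h4 : ∑ x : E, (1 : ℝ) = (q : ℝ) ^ k * (q : ℝ) ^ k := by
      rw [sum_const, card_univ, hcard, nsmul_eq_mul, mul_one]
      push_cast
      rw [← pow_add, two_mul]
    have h5 : ∑ x : E, (χ (Algebra.norm F (aeval x P)) *
          (starRingEnd ℂ) (χ (Algebra.norm F (aeval x R)))).re ≤ K * (q : ℝ) ^ k := by
      rw [← Complex.re_sum]
      exact (Complex.re_le_norm _).trans hbE
    rw [h4] at h2
    have h6 : (k : ℝ) < (q : ℝ) ^ k := by exact_mod_cast hlt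
    have h7 : (0 : ℝ) ≤ d := Nat.cast_nonneg d
    have h8 : (q : ℝ) ^ k * (q : ℝ) ^ k - d ≤ K * (q : ℝ) ^ k := by linarith
    have h9 : (1 : ℝ) ≤ (q : ℝ) ^ k := one_le_pow₀ (by exact_mod_cast (by omega : 1 ≤ q))
    nlinarith
  obtain ⟨x, hx0, hx1⟩ := hex
  have hxi : IsIntegral F x := Algebra.IsIntegral.isIntegral x
  set M := minpoly F x with hM
  have hMm : M.Monic := minpoly.monic hxi
  have hdvd : M.natDegree ∣ Module.finrank F E := (finrank_div x).2
  have hval : lamPR χ P R (M ^ (Module.finrank F E / M.natDegree)) =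
      χ (Algebra.norm F (aeval x P)) *
        (starRingEnd ℂ) (χ (Algebra.norm F (aeval x R))) := by
    rw [l_pow _ (lamPR_one χ P R) (fun g h hg hh => lamPR_mul χ P R g h hg hh) M hMm,
      norm_aeval, norm_aeval, map_pow, map_pow, map_pow, ← mul_pow]
    rfl
  refine ⟨M ^ (Module.finrank F E / M.natDegree), hMm.pow _, ?_, ?_, ?_⟩
  · rw [hMm.natDegree_pow, Nat.div_mul_cancel hdvd, hfr]
    exact even_two_mul k
  · rw [hval]; exact hx0
  · rw [hval]; exact hx1

/-- Weil's bound for a monic polynomial with an irreducible factor of multiplicity one -/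
theorem weil2 (t : ℕ) (ht : 2 ≤ t) (htF : t ∣ Fintype.card F - 1) (χ : MulChar F ℂ)
    (hχ1 : χ ≠ 1) (hχ : χ ^ t = 1) (P Q : F[X]) (hP : P.Monic) (hQ : Irreducible Q)
    (hQP : Q ∣ P) (hQ2 : ¬ Q ^ 2 ∣ P) :
    ‖∑ x : F, χ (P.eval x)‖ ≤ (P.natDegree : ℕ) * Real.sqrt (Fintype.card F) := by
  classical
  obtain ⟨K, hK, hb⟩ := T_bound2 t ht htF χ hχ1 hχ P Q hP hQ hQP hQ2
  obtain ⟨r, hr, hev, hr0, hr1⟩ := exists_r2 t ht htF χ hχ1 hχ P Q hP hQ hQP hQ2
  have hd' : P.natDegree + (1 : F[X]).natDegree = P.natDegree := by simp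
  set d := P.natDegree with hd
  set l := lamPR χ P 1 with hl
  have hl1 : l 1 = 1 := lamPR_one χ P 1
  have hlm : ∀ g h : F[X], g.Monic → h.Monic → l (g * h) = l g * l h :=
    fun g h hg hh => lamPR_mul χ P 1 g h hg hh
  have hA : ∀ n, d ≤ n → AL l n = 0 := fun n hn =>
    AL_eq_zero χ P 1 r hP monic_one hr hev hr0 hr1 n (by rw [← hd, hd']; exact hn)
  set a : ℂ[X] := ∑ n ∈ range d, C (AL l n) * X ^ n with ha
  have hd0 : 0 < d := by
    by_contra h0
    have h1 := hA 0 (by omega)
    rw [AL_zero l hl1] at h1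
    exact one_ne_zero h1
  have hcoeff : ∀ n, a.coeff n = AL l n := by
    intro n
    rw [ha, finsetSum_coeff]
    simp_rw [coeff_C_mul_X_pow]
    by_cases hn : n < d
    · rw [sum_eq_single n]
      · simp
      · intro m _ hm
        rw [if_neg (Ne.symm hm)]
      · intro h
        exact absurd (mem_range.2 hn) h
    · rw [hA n (by omega)]
      rw [sum_eq_zero]
      intro m hm
      rw [mem_range] at hm
      rw [if_neg (by omega)]
  have hdeg : a.natDegree ≤ d := by
    rw [natDegree_le_iff_coeff_eq_zero]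
    intro n hn
    rw [hcoeff, hA n (by omega)]
  have hq0 : 0 < Real.sqrt (Fintype.card F) := Real.sqrt_pos.2 (by exact_mod_cast Fintype.card_pos)
  have hmain := coeff_one_bound_k Q.natDegree hQ.natDegree_pos a
    (by rw [hcoeff, AL_zero l hl1]) (fun m => TL l m)
    (Real.sqrt (Fintype.card F)) K hq0 hK
    (fun m hm hm' => (hb m hm hm').1)
    (by
      intro n
      rw [hcoeff]
      have := n_mul_AL l hl1 hlm n
      simp_rw [hcoeff]
      exact this)
    d hdeg
  rw [hcoeff] at hmain
  have h1 := n_mul_AL l hl1 hlm 1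
  rw [Icc_self, sum_singleton, Nat.sub_self, AL_zero l hl1] at h1
  have h2 := TL_char (F := F) (E := F) χ P 1
  rw [Module.finrank_self] at h2
  have h3 : AL l 1 = ∑ x : F, χ (P.eval x) := by
    have : AL l 1 = TL l 1 := by simpa using h1
    rw [this, hl, h2]
    simp
  rw [h3] at hmain
  exact hmain

end

end Pool.Agent.R318.PR
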